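import Mathlib
import Pool.Agent.Work.MP_55ec57_gt.PeterWeyl
import Pool.Agent.Work.MP_7406cc_gt.PS.Stmts

/-! Bundle of small proof modules (one section per former module). -/

section

/-!
# Characters of compact abelian groups separate points
-/

open scoped Topology InnerProductSpace
open Filter Set

namespace Pool.Agent.Work.MP_7406cc_gt.Char

section common

variable {E : Type*} [NormedAddCommGroup E] [InnerProductSpace ℂ E] [FiniteDimensional ℂ E]
  {K : Type*} [CommGroup K]

/-- A commuting family of unitary operators has a common eigenvector outside the fixed space of a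
nontrivial member. -/
theorem exists_common_eigenvector (T : K → E →ₗ[ℂ] E)
    (hmul : ∀ k l v, T (k * l) v = T k (T l v)) (hone : ∀ v, T 1 v = v)
    (hinner : ∀ k v w, ⟪T k v, T k w⟫_ℂ = ⟪v, w⟫_ℂ) (x : K) (hx : ∃ v, T x v ≠ v) :
    ∃ u : E, u ≠ 0 ∧ (∀ k, ∃ c : ℂ, T k u = c • u) ∧ T x u ≠ u := by
  let N : Submodule ℂ E := LinearMap.ker (T x - LinearMap.id)
  have hN : ∀ v, v ∈ N ↔ T x v = v := by
    intro v
    simp only [N, LinearMap.mem_ker, LinearMap.sub_apply, LinearMap.id_apply]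
    exact sub_eq_zero
  have hcomm : ∀ k l v, T k (T l v) = T l (T k v) := by
    intro k l v
    rw [← hmul, ← hmul, mul_comm]
  have hinv : ∀ k v, T k (T k⁻¹ v) = v := by
    intro k v
    rw [← hmul, mul_inv_cancel, hone]
  let P : Submodule ℂ E → Prop := fun U => U ≠ ⊥ ∧ (∀ k, ∀ v ∈ U, T k v ∈ U) ∧ U ⊓ N = ⊥
  have hW : P Nᗮ := by
    refine ⟨?_, ?_, ?_⟩
    · intro h
      rw [Submodule.orthogonal_eq_bot_iff] at h
      obtain ⟨v, hv⟩ := hx
      exact hv ((hN v).1 (h ▸ Submodule.mem_top))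
    · intro k v hv
      rw [Submodule.mem_orthogonal] at hv ⊢
      intro u hu
      have h1 : ⟪T k (T k⁻¹ u), T k v⟫_ℂ = 0 := by
        rw [hinner]
        apply hv
        rw [hN] at hu ⊢
        rw [hcomm, hu]
      rwa [hinv] at h1
    · rw [inf_comm]
      exact Submodule.inf_orthogonal_eq_bot N
  obtain ⟨U, hU, hmin⟩ := (wellFounded_lt (α := Submodule ℂ E)).has_min {U | P U} ⟨_, hW⟩
  obtain ⟨hU0, hUinv, hUN⟩ := hU
  obtain ⟨u, huU, hu0⟩ := (Submodule.ne_bot_iff U).1 hU0
  refine ⟨u, hu0, ?_, ?_⟩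
  · intro k
    have : Nontrivial U := (Submodule.nontrivial_iff_ne_bot).2 hU0
    obtain ⟨c, hc⟩ := Module.End.exists_eigenvalue ((T k).restrict (hUinv k))
    obtain ⟨w, hw⟩ := hc.exists_hasEigenvector
    let U' : Submodule ℂ E := U ⊓ LinearMap.ker (T k - c • LinearMap.id)
    have hU' : ∀ v, v ∈ U' ↔ v ∈ U ∧ T k v = c • v := by
      intro v
      simp only [U', Submodule.mem_inf, LinearMap.mem_ker, LinearMap.sub_apply,
        LinearMap.smul_apply, LinearMap.id_apply, sub_eq_zero]
    have hPU' : P U' := by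
      refine ⟨?_, ?_, ?_⟩
      · rw [Submodule.ne_bot_iff]
        refine ⟨w, (hU' w).2 ⟨w.2, ?_⟩, ?_⟩
        · have := hw.apply_eq_smul
          have h2 := congrArg Subtype.val this
          simpa using h2
        · intro h
          exact hw.2 (Subtype.ext h)
      · intro l v hv
        rw [hU'] at hv ⊢
        refine ⟨hUinv l v hv.1, ?_⟩
        rw [hcomm, hv.2, map_smul]
      · rw [eq_bot_iff, ← hUN]
        exact inf_le_inf_right _ inf_le_left
    have hle : U ≤ U' := by
      by_contra hcon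
      exact hmin U' hPU' (lt_of_le_of_ne inf_le_left fun h => hcon (h ▸ le_rfl))
    exact ⟨c, ((hU' u).1 (hle huU)).2⟩
  · intro h
    have : u ∈ U ⊓ N := ⟨huU, (hN u).2 h⟩
    rw [hUN] at this
    exact hu0 this

end common

/-- The continuous characters of a compact Hausdorff abelian group separate points. -/
theorem exists_character {K : Type*} [CommGroup K] [TopologicalSpace K] [IsTopologicalGroup K]
    [CompactSpace K] [T2Space K] (x : K) (hx : x ≠ 1) : ∃ χ : K →ₜ* Circle, χ x ≠ 1 := by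
  obtain ⟨n, ρ, hρ, hρx⟩ := Pool.Agent.Work.MP_55ec57_gt.PeterWeyl.peter_weyl x hx
  let T : K → EuclideanSpace ℂ (Fin n) →ₗ[ℂ] EuclideanSpace ℂ (Fin n) :=
    fun k => Matrix.toEuclideanLin (ρ k : Matrix (Fin n) (Fin n) ℂ)
  have hTapp : ∀ k v, T k v = WithLp.toLp 2 ((ρ k : Matrix (Fin n) (Fin n) ℂ).mulVec (WithLp.ofLp v)) := by
    intro k v
    rfl
  have hmul : ∀ k l v, T (k * l) v = T k (T l v) := by
    intro k l v
    rw [hTapp, hTapp, hTapp, map_mul]
    simp [Matrix.mulVec_mulVec]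
  have hone : ∀ v, T 1 v = v := by
    intro v
    rw [hTapp, map_one]
    simp
  have hinner : ∀ k v w, ⟪T k v, T k w⟫_ℂ = ⟪v, w⟫_ℂ := by
    intro k v w
    have h1 : ⟪T k v, T k w⟫_ℂ = ⟪v, LinearMap.adjoint (T k) (T k w)⟫_ℂ :=
      (LinearMap.adjoint_inner_right (T k) v (T k w)).symm
    have h2 : LinearMap.adjoint (T k) = Matrix.toEuclideanLin
        (star (ρ k : Matrix (Fin n) (Fin n) ℂ)) := by
      rw [Matrix.star_eq_conjTranspose, Matrix.toEuclideanLin_conjTranspose_eq_adjoint]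
    rw [h1, h2]
    congr 1
    show WithLp.toLp 2 ((star (ρ k : Matrix (Fin n) (Fin n) ℂ)).mulVec
      ((ρ k : Matrix (Fin n) (Fin n) ℂ).mulVec (WithLp.ofLp w))) = w
    rw [Matrix.mulVec_mulVec, Unitary.coe_star_mul_self]
    simp
  have hmove : ∃ v, T x v ≠ v := by
    by_contra hcon
    push Not at hcon
    apply hρx
    apply Subtype.ext
    apply Matrix.toEuclideanLin.injective
    apply LinearMap.ext
    intro v
    rw [show Matrix.toEuclideanLin ((ρ x : Matrix (Fin n) (Fin n) ℂ)) v = T x v from rfl, hcon v]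
    show v = WithLp.toLp 2 ((1 : Matrix (Fin n) (Fin n) ℂ).mulVec (WithLp.ofLp v))
    rw [Matrix.one_mulVec]
  obtain ⟨u, hu0, hc, hux⟩ := exists_common_eigenvector T hmul hone hinner x hmove
  choose c hc using hc
  have hcirc : ∀ k, ‖c k‖ = 1 := by
    intro k
    have h1 : ‖T k u‖ = ‖u‖ := by
      have h2 := hinner k u u
      rw [inner_self_eq_norm_sq_to_K, inner_self_eq_norm_sq_to_K] at h2
      have h3 : ‖T k u‖ ^ 2 = ‖u‖ ^ 2 := by exact_mod_cast h2
      exact (sq_eq_sq₀ (norm_nonneg _) (norm_nonneg _)).1 h3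
    rw [hc, norm_smul] at h1
    have h2 : ‖u‖ ≠ 0 := norm_ne_zero_iff.2 hu0
    exact (mul_eq_right₀ h2).1 h1
  have hcmul : ∀ k l, c (k * l) = c k * c l := by
    intro k l
    have h1 := hc (k * l)
    rw [hmul, hc l, map_smul, hc k, smul_smul] at h1
    have h2 : c (k * l) = c l * c k := (smul_left_injective ℂ hu0 h1).symm
    exact h2.trans (mul_comm _ _)
  have hc1 : c 1 = 1 := by
    have h1 := hc 1
    rw [hone] at h1
    have h2 : (1 : ℂ) • u = c 1 • u := by rw [one_smul]; exact h1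
    exact (smul_left_injective ℂ hu0 h2).symm
  have hcont : Continuous c := by
    have h1 : ∀ k, c k = ⟪u, T k u⟫_ℂ / ⟪u, u⟫_ℂ := by
      intro k
      rw [hc k, inner_smul_right, mul_div_assoc, div_self, mul_one]
      exact inner_self_ne_zero.2 hu0
    have h2 : Continuous fun k => T k u := by
      have h3 : Continuous fun k => (ρ k : Matrix (Fin n) (Fin n) ℂ).mulVec (WithLp.ofLp u) :=
        Continuous.matrix_mulVec (continuous_subtype_val.comp hρ) continuous_const
      exact (PiLp.continuous_toLp 2 _).comp h3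
    have h4 : c = fun k => ⟪u, T k u⟫_ℂ / ⟪u, u⟫_ℂ := funext h1
    rw [h4]
    exact (continuous_const.inner h2).div_const _
  have hmem : ∀ k, c k ∈ Submonoid.unitSphere ℂ := by
    intro k
    rw [← SetLike.mem_coe]
    simp [Submonoid.unitSphere, hcirc k]
  let χ : K →ₜ* Circle :=
    { toFun := fun k => ⟨c k, hmem k⟩
      map_one' := Subtype.ext hc1
      map_mul' := fun k l => Subtype.ext (hcmul k l)
      continuous_toFun := hcont.subtype_mk hmem }
  refine ⟨χ, fun h => hux ?_⟩
  have h1 : c x = 1 := congrArg Subtype.val h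
  rw [hc x, h1, one_smul]

end Pool.Agent.Work.MP_7406cc_gt.Char

end

section

/-!
# Duality for compact abelian groups
-/

open scoped Topology InnerProductSpace Pointwise
open Filter Set MeasureTheory

namespace Pool.Agent.Work.MP_7406cc_gt.Dual

section sw

variable {K : Type*} [CommGroup K] [TopologicalSpace K] [IsTopologicalGroup K]
  [CompactSpace K] [T2Space K]

/-- A character as a complex valued continuous function. -/
noncomputable def toC (χ : K →ₜ* Circle) : C(K, ℂ) := ⟨fun k => (χ k : ℂ), by fun_prop⟩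

omit [IsTopologicalGroup K] [CompactSpace K] [T2Space K] in
theorem toC_apply (χ : K →ₜ* Circle) (k : K) : toC χ k = (χ k : ℂ) := rfl

omit [IsTopologicalGroup K] [CompactSpace K] [T2Space K] in
theorem toC_mul (χ θ : K →ₜ* Circle) : toC (χ * θ) = toC χ * toC θ := by
  ext k
  simp [toC_apply]

omit [IsTopologicalGroup K] [CompactSpace K] [T2Space K] in
theorem toC_inv (χ : K →ₜ* Circle) : toC χ⁻¹ = star (toC χ) := by
  ext k
  simp only [toC_apply, ContinuousMap.star_apply]
  show ((χ k)⁻¹ : Circle) = star ((χ k : Circle) : ℂ)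
  rw [Circle.coe_inv_eq_conj]
  rfl

omit [CompactSpace K] [T2Space K] in
theorem integral_eq_zero [MeasurableSpace K] [BorelSpace K] (μ : Measure K) [μ.IsHaarMeasure]
    (θ : K →ₜ* Circle) (hθ : θ ≠ 1) : ∫ k, (θ k : ℂ) ∂μ = 0 := by
  obtain ⟨g, hg⟩ : ∃ g, θ g ≠ 1 := by
    by_contra hcon
    push Not at hcon
    exact hθ (ContinuousMonoidHom.ext hcon)
  have h1 : ∫ k, (θ (g * k) : ℂ) ∂μ = ∫ k, (θ k : ℂ) ∂μ :=
    integral_mul_left_eq_self (fun k => (θ k : ℂ)) g
  have h2 : ∫ k, (θ (g * k) : ℂ) ∂μ = (θ g : ℂ) * ∫ k, (θ k : ℂ) ∂μ := by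
    rw [← integral_const_mul]
    congr 1
    ext k
    rw [map_mul, Circle.coe_mul]
  rw [h2] at h1
  have h3 : ((θ g : ℂ) - 1) * ∫ k, (θ k : ℂ) ∂μ = 0 := by
    rw [sub_mul, one_mul, h1, sub_self]
  rcases mul_eq_zero.1 h3 with h | h
  · exact absurd (Circle.ext (by rw [Circle.coe_one]; exact sub_eq_zero.1 h)) hg
  · exact h

/-- A group of characters that separates the points of a compact abelian group contains all
characters. -/
theorem mem_of_separates (S : Subgroup (K →ₜ* Circle))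
    (hsep : ∀ x : K, x ≠ 1 → ∃ χ ∈ S, χ x ≠ 1) (χ : K →ₜ* Circle) : χ ∈ S := by
  by_contra hχ
  let _ : MeasurableSpace K := borel K
  have : BorelSpace K := ⟨rfl⟩
  let μ : Measure K := Measure.haar
  let A : Set C(K, ℂ) := toC '' (S : Set (K →ₜ* Circle))
  have hAmul : A * A ⊆ A := by
    rintro _ ⟨_, ⟨s, hs, rfl⟩, _, ⟨t, ht, rfl⟩, rfl⟩
    exact ⟨s * t, S.mul_mem hs ht, toC_mul s t⟩
  let B : StarSubalgebra ℂ C(K, ℂ) :=
    { carrier := (Submodule.span ℂ A : Set C(K, ℂ))
      mul_mem' := by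
        intro f g hf hg
        have h1 : f * g ∈ Submodule.span ℂ A * Submodule.span ℂ A := Submodule.mul_mem_mul hf hg
        rw [Submodule.span_mul_span] at h1
        exact Submodule.span_mono hAmul h1
      add_mem' := fun hf hg => Submodule.add_mem _ hf hg
      algebraMap_mem' := by
        intro c
        have h1 : (algebraMap ℂ C(K, ℂ)) c = c • toC (1 : K →ₜ* Circle) := by
          ext k
          simp [toC_apply]
        rw [h1]
        exact Submodule.smul_mem _ _ (Submodule.subset_span ⟨1, S.one_mem, rfl⟩)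
      star_mem' := by
        intro f hf
        show star f ∈ Submodule.span ℂ A
        have hf' : f ∈ Submodule.span ℂ A := hf
        clear hf
        induction hf' using Submodule.span_induction with
        | mem f hf =>
          obtain ⟨s, hs, rfl⟩ := hf
          exact Submodule.subset_span ⟨s⁻¹, S.inv_mem hs, toC_inv s⟩
        | zero => simp
        | add f g _ _ h1 h2 =>
          rw [star_add]
          exact Submodule.add_mem _ h1 h2
        | smul c f _ h1 =>
          rw [star_smul]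
          exact Submodule.smul_mem _ _ h1 }
  have hB : B.SeparatesPoints := by
    intro x y hxy
    obtain ⟨s, hs, hsx⟩ := hsep (x * y⁻¹) (fun h => hxy (mul_inv_eq_one.1 h))
    refine ⟨_, ⟨toC s, Submodule.subset_span ⟨s, hs, rfl⟩, rfl⟩, ?_⟩
    intro h
    apply hsx
    have h1 : s x = s y := Circle.ext h
    rw [map_mul, h1, map_inv, mul_inv_cancel]
  have htop := ContinuousMap.starSubalgebra_topologicalClosure_eq_top_of_separatesPoints B hB
  have hmem : toC χ ∈ closure (B : Set C(K, ℂ)) := by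
    have : toC χ ∈ B.topologicalClosure := by rw [htop]; trivial
    exact this
  obtain ⟨f, hf, hfd⟩ := Metric.mem_closure_iff.1 hmem (1 / 2) (by norm_num)
  have horth : ∀ f ∈ Submodule.span ℂ A, ∫ k, star (χ k : ℂ) * f k ∂μ = 0 := by
    intro f hf
    induction hf using Submodule.span_induction with
    | mem f hf =>
      obtain ⟨s, hs, rfl⟩ := hf
      have h1 : ∀ k, star (χ k : ℂ) * toC s k = ((χ⁻¹ * s) k : ℂ) := by
        intro k
        show star (χ k : ℂ) * toC s k = (((χ k)⁻¹ * s k : Circle) : ℂ)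
        rw [Circle.coe_mul, Circle.coe_inv_eq_conj, toC_apply]
        rfl
      simp_rw [h1]
      apply integral_eq_zero
      intro h
      exact hχ (by rw [inv_mul_eq_one.1 h]; exact hs)
    | zero => simp
    | add f g _ _ h1 h2 =>
      have h3 : ∀ k, star (χ k : ℂ) * (f + g) k = star (χ k : ℂ) * f k + star (χ k : ℂ) * g k := by
        intro k
        rw [ContinuousMap.add_apply, mul_add]
      simp_rw [h3]
      rw [integral_add, h1, h2, add_zero]
      · exact (Continuous.integrable_of_hasCompactSupport (by fun_prop)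
          (HasCompactSupport.of_compactSpace _))
      · exact (Continuous.integrable_of_hasCompactSupport (by fun_prop)
          (HasCompactSupport.of_compactSpace _))
    | smul c f _ h1 =>
      have h3 : ∀ k, star (χ k : ℂ) * (c • f) k = c * (star (χ k : ℂ) * f k) := by
        intro k
        rw [ContinuousMap.smul_apply, smul_eq_mul]
        ring
      simp_rw [h3]
      rw [integral_const_mul, h1, mul_zero]
  have h0 := horth f hf
  have h1 : ∫ k, star (χ k : ℂ) * toC χ k ∂μ = μ.real univ := by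
    have h2 : ∀ k, star (χ k : ℂ) * toC χ k = 1 := by
      intro k
      rw [toC_apply]
      have := Circle.normSq_coe (χ k)
      rw [mul_comm, Complex.star_def, Complex.mul_conj, this]
      norm_num
    simp_rw [h2]
    simp
  have h2 : ∫ k, star (χ k : ℂ) * (toC χ k - f k) ∂μ = μ.real univ := by
    rw [← h1, ← sub_zero (∫ k, star (χ k : ℂ) * toC χ k ∂μ), ← h0, ← integral_sub]
    · congr 1
      ext k
      ring
    · exact (Continuous.integrable_of_hasCompactSupport (by fun_prop)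
          (HasCompactSupport.of_compactSpace _))
    · exact (Continuous.integrable_of_hasCompactSupport (by fun_prop)
          (HasCompactSupport.of_compactSpace _))
  have h3 : ‖∫ k, star (χ k : ℂ) * (toC χ k - f k) ∂μ‖ ≤ 1 / 2 * μ.real univ := by
    apply norm_integral_le_of_norm_le_const
    filter_upwards with k
    rw [norm_mul, norm_star, Circle.norm_coe, one_mul]
    have h4 : ‖(toC χ - f) k‖ ≤ ‖toC χ - f‖ := ContinuousMap.norm_coe_le_norm _ k
    rw [dist_eq_norm] at hfd
    exact (h4.trans hfd.le)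
  have hpos : 0 < μ.real univ := by
    rw [Measure.real, ENNReal.toReal_pos_iff]
    exact ⟨isOpen_univ.measure_pos μ univ_nonempty, measure_lt_top μ _⟩
  rw [h2, Complex.norm_real, Real.norm_of_nonneg hpos.le] at h3
  linarith

end sw

section bidual

/-- Homomorphisms into the circle, as a subgroup of the power. -/
def homs (X : Type*) [CommGroup X] : Subgroup (X → Circle) where
  carrier := {f | ∀ x y, f (x * y) = f x * f y}
  mul_mem' := by
    intro f g hf hg x y
    simp only [Set.mem_ofPred_eq] at hf hg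
    rw [Pi.mul_apply, Pi.mul_apply, Pi.mul_apply, hf, hg]
    exact mul_mul_mul_comm _ _ _ _
  one_mem' := by
    intro x y
    simp
  inv_mem' := by
    intro f hf x y
    simp only [Set.mem_ofPred_eq] at hf
    rw [Pi.inv_apply, Pi.inv_apply, Pi.inv_apply, hf, mul_inv]

theorem isClosed_homs (X : Type*) [CommGroup X] : IsClosed (homs X : Set (X → Circle)) := by
  have : (homs X : Set (X → Circle)) = ⋂ x : X, ⋂ y : X, {f | f (x * y) = f x * f y} := by
    ext f
    simp [homs]
  rw [this]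
  refine isClosed_iInter fun x => isClosed_iInter fun y => ?_
  exact isClosed_eq (continuous_apply _) (Continuous.mul (f := fun f : X → Circle => f x)
    (g := fun f : X → Circle => f y) (continuous_apply _) (continuous_apply _))

variable {K : Type*} [CommGroup K] [TopologicalSpace K] [IsTopologicalGroup K]
  [CompactSpace K] [T2Space K]

/-- Evaluation of characters at the points of `K`. -/
noncomputable def ev : K →* homs (K →ₜ* Circle) where
  toFun k := ⟨fun χ => χ k, fun _ _ => rfl⟩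
  map_one' := Subtype.ext (funext fun χ => map_one χ)
  map_mul' k l := Subtype.ext (funext fun χ => map_mul χ k l)

omit [IsTopologicalGroup K] [CompactSpace K] [T2Space K] in
theorem continuous_ev : Continuous (ev : K → homs (K →ₜ* Circle)) := by
  apply Continuous.subtype_mk
  exact continuous_pi fun χ => χ.continuous_toFun

omit [IsTopologicalGroup K] [T2Space K] in
/-- Every homomorphism from the character group to the circle is an evaluation. -/
theorem exists_eval (Φ : (K →ₜ* Circle) →* Circle) : ∃ k : K, ∀ χ, Φ χ = χ k := by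
  let X := K →ₜ* Circle
  let L := homs X
  have hcomp : CompactSpace L := isCompact_iff_compactSpace.1 (isClosed_homs X).isCompact
  let N : Subgroup L := (ev : K →* homs (K →ₜ* Circle)).range
  have hN : IsClosed (N : Set L) := by
    have h1 : (N : Set L) = Set.range (ev : K → homs (K →ₜ* Circle)) := rfl
    rw [h1]
    exact (isCompact_range continuous_ev).isClosed
  let Φ' : L := ⟨fun χ => Φ χ, fun x y => map_mul Φ x y⟩
  by_cases hΦ : Φ' ∈ N
  · obtain ⟨k, hk⟩ := hΦ
    refine ⟨k, fun χ => ?_⟩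
    have h1 := congrFun (congrArg Subtype.val hk) χ
    exact h1.symm
  · exfalso
    have hT2 : T2Space (L ⧸ N) := by
      have : IsClosed (N : Set L) := hN
      infer_instance
    have hne : (QuotientGroup.mk Φ' : L ⧸ N) ≠ 1 := by
      intro h
      exact hΦ ((QuotientGroup.eq_one_iff _).1 h)
    obtain ⟨η, hη⟩ := Char.exists_character (K := L ⧸ N) _ hne
    let θ : L →ₜ* Circle :=
      { toMonoidHom := η.toMonoidHom.comp (QuotientGroup.mk' N)
        continuous_toFun := η.continuous_toFun.comp continuous_quot_mk }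
    let F : X →* (L →ₜ* Circle) :=
      { toFun := fun χ =>
          { toFun := fun f => f.1 χ
            map_one' := rfl
            map_mul' := fun _ _ => rfl
            continuous_toFun := (continuous_apply χ).comp continuous_subtype_val }
        map_one' := by
          ext f
          have h1 := f.2 1 1
          rw [mul_one] at h1
          exact congrArg _ (mul_eq_left.1 h1.symm)
        map_mul' := by
          intro χ ψ
          ext f
          exact congrArg _ (f.2 χ ψ) }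
    have hmem : θ ∈ F.range := by
      apply mem_of_separates
      intro f hf
      by_contra hcon
      push Not at hcon
      apply hf
      apply Subtype.ext
      funext χ
      exact hcon (F χ) ⟨χ, rfl⟩
    obtain ⟨χ, hχ⟩ := hmem
    have h1 : χ = 1 := by
      ext k
      have h2 : F χ (ev k) = θ (ev k) := by rw [hχ]
      have h3 : θ (ev k) = η (QuotientGroup.mk (ev k)) := rfl
      have h4 : (QuotientGroup.mk (ev k) : L ⧸ N) = 1 :=
        (QuotientGroup.eq_one_iff _).2 ⟨k, rfl⟩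
      rw [h3, h4, map_one] at h2
      exact congrArg _ h2
    apply hη
    have h5 : F χ Φ' = θ Φ' := by rw [hχ]
    have h6 : F χ Φ' = Φ χ := rfl
    have h7 : θ Φ' = η (QuotientGroup.mk Φ') := rfl
    rw [← h7, ← h5, h6, h1, map_one]

/-- The topology of a compact abelian group is the one induced by its characters. -/
theorem isEmbedding_ev : Topology.IsEmbedding (fun k : K => fun χ : K →ₜ* Circle => χ k) := by
  apply Topology.IsClosedEmbedding.isEmbedding
  apply Continuous.isClosedEmbedding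
  · exact continuous_pi fun χ => χ.continuous_toFun
  · intro k l h
    by_contra hkl
    obtain ⟨χ, hχ⟩ := Char.exists_character (k * l⁻¹) (fun h => hkl (mul_inv_eq_one.1 h))
    apply hχ
    have := congrFun h χ
    simp only at this
    rw [map_mul, this, map_inv, mul_inv_cancel]

theorem eq_of_forall (k l : K) (h : ∀ χ : K →ₜ* Circle, χ k = χ l) : k = l :=
  isEmbedding_ev.injective (funext h)

theorem tendsto_iff {ι : Type*} (F : Filter ι) (x : ι → K) (k : K) :
    Tendsto x F (𝓝 k) ↔ ∀ χ : K →ₜ* Circle, Tendsto (fun i => χ (x i)) F (𝓝 (χ k)) := by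
  rw [isEmbedding_ev.tendsto_nhds_iff, tendsto_pi_nhds]
  rfl

theorem metrizableSpace_of_countable [Countable (K →ₜ* Circle)] :
    TopologicalSpace.MetrizableSpace K :=
  isEmbedding_ev.metrizableSpace

end bidual

end Pool.Agent.Work.MP_7406cc_gt.Dual

end

section

/-!
# Minimal abelian groups are precompact: multiplicative form
-/

open scoped Topology Pointwise
open Filter Set

namespace Pool.Agent.Work.MP_7406cc_gt.PS

theorem precompact_of_minimal (h : S_PS) (G : Type) [CommGroup G] [τ : TopologicalSpace G]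
    [IsTopologicalGroup G] [T2Space G]
    (hmin : ∀ t : TopologicalSpace G, τ ≤ t → @IsTopologicalGroup G t _ → @T2Space G t → t = τ) :
    ∀ U ∈ 𝓝 (1 : G), ∃ F : Set G, F.Finite ∧ F * U = Set.univ := by
  have hm : MinG (Additive G) := by
    intro t ht h1 h2
    refine hmin t ht ?_ h2
    exact @IsTopologicalGroup.mk G t _ (@ContinuousMul.mk G t _ h1.continuous_add)
      (@ContinuousInv.mk G t _ h1.continuous_neg)
  have : T2Space (Additive G) := inferInstanceAs (T2Space G)
  intro U hU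
  obtain ⟨F, hF, hFU⟩ := h (Additive G) hm U hU
  refine ⟨F, hF, eq_univ_of_forall fun x => ?_⟩
  obtain ⟨f, hf, hx⟩ := hFU x (mem_univ _)
  exact Set.mem_mul.2 ⟨f, hf, (x : G) / (show G from f), hx, mul_div_cancel (show G from f) x⟩

end Pool.Agent.Work.MP_7406cc_gt.PS

end

section

open scoped Topology
open Filter Set

namespace Pool.Agent.Work.MP_7406cc_gt.PS

namespace CaseFinX

/-- Combinations starting at `n`. -/
def Tl (n : ℕ) : Set (ℕ →₀ ℤ) := {c | ∀ i < n, c i = 0}

lemma exists_bound (v : ℕ →₀ ℤ) (ρ : ℕ) : ∃ n, ρ ≤ n ∧ ∀ i, n ≤ i → v i = 0 := by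
  refine ⟨ρ + v.support.sup id + 1, by omega, fun i hi => ?_⟩
  by_contra h
  have h1 : i ∈ v.support := Finsupp.mem_support_iff.2 h
  have h2 : id i ≤ v.support.sup id := Finset.le_sup h1
  simp only [id] at h2
  omega

lemma dvd_of (v : ℕ →₀ ℤ) (m : ℕ) (h : ∀ i, (m : ℤ) ∣ v i) : ∃ w : ℕ →₀ ℤ, v = m • w := by
  refine ⟨v.mapRange (fun z => z / (m : ℤ)) (by simp), ?_⟩
  ext i
  have : v i = (m : ℤ) * (v i / (m : ℤ)) := (Int.mul_ediv_cancel' (h i)).symm
  simpa using this

end CaseFinX

open CaseFinX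

theorem prf_CaseFin (h1 : S_KeyHom) (h2 : S_SelStar) (h3 : S_Indep) (h4 : S_Cp)
    (h5 : S_TailTB) (h6 : S_CharFam) (h7 : S_PairComp) : S_CaseFin := by
  intro G _ _ _ _ _ hmin hstar p hp ρ hρ hth hthin
  obtain ⟨W', hW', g, a, ha, hsel⟩ := h2 G p hp (fun r => r < ρ) hth
  obtain ⟨U₁, hU₁, hind⟩ := h3 G p hp (fun r => r < ρ)
    (fun r hr s hs => lt_of_le_of_lt hs hr) W' hW' g a ha hsel (ρ - 1) (by omega)
  have hρ1 : ρ - 1 + 1 = ρ := by omega
  rw [hρ1] at hind
  have hTB := h5 G p ρ hp hstar hthin a (by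
    intro n hn hco
    refine ⟨n, fun i hi => ?_⟩
    obtain ⟨k, hk⟩ := (h4 p hp).2.2 n hn hco i hi
    exact ⟨k • g i, by rw [ha, hk, mul_smul]⟩)
  obtain ⟨X, ψ, hψ⟩ := h6 G (p ^ ρ) (pow_pos hp.pos _) a hTB
  let Ψ : (ℕ →₀ ℤ) → X → Circle := fun c χ => ψ χ c
  have hΨ0 : Ψ 0 = 1 := by
    funext χ
    exact (ψ χ).map_zero_eq_one
  have hΨsub : ∀ c d, Ψ (c - d) = Ψ c / Ψ d := by
    intro c d
    funext χ
    exact (ψ χ).map_sub_eq_div c d
  let B : Filter (ℕ →₀ ℤ) := (⨅ n, 𝓟 (Tl n)) ⊓ comap Ψ (𝓝 1)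
  have hB0 : (⨅ n, 𝓟 (Tl n)).HasBasis (fun _ : ℕ => True) Tl := by
    apply hasBasis_iInf_principal
    apply Antitone.directed_ge
    intro m n hmn c hc i hi
    exact hc i (lt_of_lt_of_le hi hmn)
  have hB : B.HasBasis (fun q : ℕ × Set (X → Circle) => True ∧ q.2 ∈ 𝓝 1)
      (fun q => Tl q.1 ∩ Ψ ⁻¹' q.2) := hB0.inf ((𝓝 1).basis_sets.comap Ψ)
  have hTl : ∀ n, Tl n ∈ B := fun n =>
    mem_inf_of_left (mem_iInf_of_mem n (mem_principal_self _))
  have hpure : pure 0 ≤ B := by
    rw [hB.ge_iff]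
    rintro ⟨n, O⟩ ⟨-, hO⟩
    rw [mem_pure]
    refine ⟨fun i _ => rfl, ?_⟩
    show Ψ 0 ∈ O
    rw [hΨ0]
    exact mem_of_mem_nhds hO
  have hsub : Tendsto (fun q : (ℕ →₀ ℤ) × (ℕ →₀ ℤ) => q.1 - q.2) (B ×ˢ B) B := by
    rw [hB.tendsto_right_iff]
    rintro ⟨n, O⟩ ⟨-, hO⟩
    obtain ⟨O', hO', hdiv⟩ := exists_nhds_split_inv hO
    have hS : Tl n ∩ Ψ ⁻¹' O' ∈ B := hB.mem_of_mem (i := (n, O')) ⟨trivial, hO'⟩
    filter_upwards [prod_mem_prod hS hS] with q hq
    obtain ⟨⟨hq1, hq2⟩, hq3, hq4⟩ := hq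
    refine ⟨fun i hi => ?_, ?_⟩
    · show q.1 i - q.2 i = 0
      rw [hq1 i hi, hq3 i hi, sub_zero]
    · show Ψ (q.1 - q.2) ∈ O
      rw [hΨsub]
      exact hdiv _ hq2 _ hq4
  have hT : Tendsto (lc a) B (𝓝 0) := by
    refine h1 G hmin (ℕ →₀ ℤ) (lc a) B hpure hsub ?_
    intro W hW
    obtain ⟨O, hO, hOW⟩ := hψ W hW
    refine ⟨U₁, hU₁, Tl ρ ∩ Ψ ⁻¹' O, hB.mem_of_mem (i := (ρ, O)) ⟨trivial, hO⟩, ?_⟩
    intro v hv hv'
    obtain ⟨n, hn, hnv⟩ := exists_bound v ρ
    obtain ⟨v', hv'T, hv'U⟩ := hv' (Tl n) (hTl n)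
    have hd : ∀ i, ((p ^ ρ : ℕ) : ℤ) ∣ v i := by
      intro i
      by_cases hi1 : i < ρ
      · rw [hv.1 i hi1]
        exact dvd_zero _
      by_cases hi2 : n ≤ i
      · rw [hnv i hi2]
        exact dvd_zero _
      have h := hind (v - v') (by rw [map_sub]; exact hv'U) i (by omega)
      have h' : (v - v') i = v i := by
        show v i - v' i = v i
        rw [hv'T i (by omega), sub_zero]
      rw [h'] at h
      exact_mod_cast h
    obtain ⟨w, rfl⟩ := dvd_of v (p ^ ρ) hd
    rw [map_nsmul]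
    exact hOW w hv.2
  obtain ⟨⟨n, O'⟩, ⟨-, hO'⟩, hsubU⟩ := hB.mem_iff.1 (hT hU₁)
  obtain ⟨i, j, hi, hj, hij, hO''⟩ :=
    h7 X (fun i => Ψ (Finsupp.single i 1)) O' hO' (max n ρ)
  have hni : n ≤ i := le_trans (le_max_left _ _) hi
  have hnj : n ≤ j := le_trans (le_max_left _ _) hj
  have hρi : ρ ≤ i := le_trans (le_max_right _ _) hi
  have hc : (Finsupp.single i 1 - Finsupp.single j 1 : ℕ →₀ ℤ) ∈ Tl n ∩ Ψ ⁻¹' O' := by
    refine ⟨fun k hk => ?_, ?_⟩
    · show (Finsupp.single i 1 : ℕ →₀ ℤ) k - (Finsupp.single j 1 : ℕ →₀ ℤ) k = 0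
      rw [Finsupp.single_eq_of_ne (by omega), Finsupp.single_eq_of_ne (by omega), sub_zero]
    · show Ψ (Finsupp.single i 1 - Finsupp.single j 1) ∈ O'
      rw [hΨsub, div_eq_mul_inv]
      exact hO''
  have hu := hind _ (hsubU hc) i (by omega)
  have hval : (Finsupp.single i 1 - Finsupp.single j 1 : ℕ →₀ ℤ) i = 1 := by
    show (Finsupp.single i 1 : ℕ →₀ ℤ) i - (Finsupp.single j 1 : ℕ →₀ ℤ) i = 1
    rw [Finsupp.single_eq_same, Finsupp.single_eq_of_ne hij, sub_zero]
  rw [hval] at hu
  have hle := Int.le_of_dvd one_pos hu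
  have hlt : (1 : ℤ) < (p : ℤ) ^ ρ := one_lt_pow₀ (by exact_mod_cast hp.one_lt) (by omega)
  omega

end Pool.Agent.Work.MP_7406cc_gt.PS

end

section

set_option autoImplicit false

/-!
# The case of infinitely many thick levels
-/

open scoped Topology
open Filter Set

namespace Pool.Agent.Work.MP_7406cc_gt.PS

namespace CaseInfX

/-- The tails. -/
def tl (n : ℕ) : Set (ℕ →₀ ℤ) := {c | ∀ i < n, c i = 0}

/-- The filter of the tails. -/
def BB : Filter (ℕ →₀ ℤ) := ⨅ n, 𝓟 (tl n)

lemma tl_anti {m n : ℕ} (h : m ≤ n) : tl n ⊆ tl m := fun _ hc i hi => hc i (hi.trans_le h)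

lemma tl_mem (n : ℕ) : tl n ∈ BB := mem_iInf_of_mem n (mem_principal_self _)

lemma mem_BB {V : Set (ℕ →₀ ℤ)} : V ∈ BB ↔ ∃ n, tl n ⊆ V := by
  have hb : (⨅ n, 𝓟 (tl n)).HasBasis (fun _ : ℕ => True) tl := by
    refine hasBasis_iInf_principal ?_
    intro m n
    exact ⟨max m n, tl_anti (le_max_left _ _), tl_anti (le_max_right _ _)⟩
  have := hb.mem_iff (t := V)
  unfold BB
  rw [this]
  simp

lemma pure_le : pure 0 ≤ BB := by
  refine le_iInf fun n => ?_
  rw [le_principal_iff, mem_pure]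
  intro i _
  rfl

lemma tends_sub : Tendsto (fun q : (ℕ →₀ ℤ) × (ℕ →₀ ℤ) => q.1 - q.2) (BB ×ˢ BB) BB := by
  unfold BB
  rw [tendsto_iInf]
  intro n
  rw [tendsto_principal]
  have h1 : tl n ×ˢ tl n ∈ BB ×ˢ BB := prod_mem_prod (tl_mem n) (tl_mem n)
  filter_upwards [h1] with q hq
  intro i hi
  have h2 := hq.1 i hi
  have h3 := hq.2 i hi
  rw [Finsupp.sub_apply, h2, h3, sub_zero]

end CaseInfX

open CaseInfX in
theorem prf_CaseInf (h1 : S_KeyHom) (h2 : S_SelStar) (h3 : S_Indep) (h4 : S_Cp) : S_CaseInf := by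
  intro G _ _ _ _ hmin hstar p hp hT
  obtain ⟨W', hW', g, a, ha, hsel⟩ := h2 G p hp (fun _ => True) (fun s _ => hT s)
  have hI := h3 G p hp (fun _ => True) (fun _ _ _ _ => trivial) W' hW' g a ha hsel
  have hlim : Tendsto (lc a) BB (𝓝 0) := by
    refine h1 G hmin (ℕ →₀ ℤ) (lc a) BB pure_le tends_sub ?_
    intro W hW
    obtain ⟨N, hN, hNW⟩ := hstar W hW
    obtain ⟨U, hU, hUd⟩ := hI N trivial
    refine ⟨U, hU, tl N, tl_mem N, ?_⟩
    intro v hv hcl
    have hdiv : ∀ i, (p : ℤ) ^ (N + 1) ∣ v i := by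
      intro i
      obtain ⟨v', hv', hvU⟩ := hcl (tl (i + 1)) (tl_mem _)
      rw [← map_sub] at hvU
      rcases lt_or_ge i N with hi | hi
      · rw [hv i hi]
        exact dvd_zero _
      · have h5 := hUd _ hvU i hi
        rw [Finsupp.sub_apply, hv' i (Nat.lt_succ_self i), sub_zero] at h5
        exact h5
    have hmem : lc a v ∈ (zsmulAddGroupHom (α := G) (N : ℤ)).range := by
      have hs : lc a v = v.sum (fun i c => c • a i) := by
        simp [lc, Finsupp.linearCombination_apply]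
      rw [hs]
      refine AddSubgroup.sum_mem _ ?_
      intro i _
      change v i • a i ∈ _
      rcases lt_or_ge i N with hi | hi
      · rw [hv i hi, zero_smul]
        exact AddSubgroup.zero_mem _
      · obtain ⟨k, hk⟩ := hdiv i
        obtain ⟨l, hl⟩ := (h4 p hp).2.1 N hN i N hi le_rfl
        refine ⟨(k * l) • g i, ?_⟩
        rw [hk, ha i]
        change (N : ℤ) • (k * (l : ℤ)) • g i = ((p : ℤ) ^ (N + 1) * k) • (cp p i • g i)
        rw [← natCast_zsmul (g i), ← mul_smul, ← mul_smul]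
        congr 1
        have hl' : (p : ℤ) ^ (N + 1) * (cp p i : ℤ) = N * l := by exact_mod_cast hl
        linear_combination (-k) * hl'
    obtain ⟨z, hz⟩ := hmem
    rw [← hz]
    change (N : ℤ) • z ∈ W
    rw [natCast_zsmul]
    exact hNW z
  obtain ⟨U, hU, hUd⟩ := hI 0 trivial
  obtain ⟨n, hn⟩ := mem_BB.1 (hlim hU)
  have hs : Finsupp.single n (1 : ℤ) ∈ tl n := by
    intro i hi
    rw [Finsupp.single_apply, if_neg hi.ne']
  have h5 := hUd _ (hn hs) n (Nat.zero_le _)
  rw [Finsupp.single_eq_same, zero_add, pow_one] at h5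
  have h6 : (p : ℤ) ∣ ((1 : ℕ) : ℤ) := by simpa using h5
  exact hp.one_lt.ne' (Nat.dvd_one.1 (Int.natCast_dvd_natCast.1 h6))

end Pool.Agent.Work.MP_7406cc_gt.PS

end

section

/-!
# Continuous characters of compact Hausdorff abelian groups separate points (additive form)
-/

open scoped Topology
open Filter Set

namespace Pool.Agent.Work.MP_7406cc_gt.PS

theorem prf_CharD : S_CharD := by
  intro K _ _ _ _ _ x hx
  have hT : T2Space (Multiplicative K) := inferInstanceAs (T2Space K)
  obtain ⟨χ, hχ⟩ := Pool.Agent.Work.MP_7406cc_gt.Char.exists_character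
    (K := Multiplicative K) (Multiplicative.ofAdd x)
    (fun h => hx (Multiplicative.ofAdd.injective h))
  refine ⟨{ toFun := fun y => χ (Multiplicative.ofAdd y)
            map_zero_eq_one' := ?_
            map_add_eq_mul' := ?_ }, ?_, hχ⟩
  · rw [ofAdd_zero, map_one]
  · intro a b
    rw [ofAdd_add, map_mul]
  · exact χ.continuous_toFun.comp continuous_ofAdd

end Pool.Agent.Work.MP_7406cc_gt.PS

end

section

/-!
# Item CharFam: a family of characters describing the topology on the multiples of a sequence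
-/

set_option autoImplicit false

open scoped Topology
open Filter Set

namespace Pool.Agent.Work.MP_7406cc_gt.PS

namespace CharFamX

theorem root (m : ℕ) (hm : 0 < m) (z : Circle) : ∃ w : Circle, w ^ m = z := by
  refine ⟨Circle.exp (Complex.arg z / m), ?_⟩
  rw [← Circle.exp_natCast_mul]
  have h : (m : ℝ) * (Complex.arg z / m) = Complex.arg z := by
    field_simp
  rw [h, Circle.exp_arg]

theorem tb {G : Type} [AddCommGroup G] [UniformSpace G] [IsUniformAddGroup G] (X : Set G)
    (h : TB X) : TotallyBounded X := by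
  intro d hd
  rw [uniformity_eq_comap_nhds_zero, Filter.mem_comap] at hd
  obtain ⟨U, hU, hUd⟩ := hd
  have hU' : (fun x : G => -x) ⁻¹' U ∈ 𝓝 (0 : G) := by
    have : Tendsto (fun x : G => -x) (𝓝 0) (𝓝 0) := by
      simpa using (continuous_neg (G := G)).tendsto 0
    exact this hU
  obtain ⟨F, hF, hFX⟩ := h _ hU'
  refine ⟨F, hF, fun x hx => ?_⟩
  obtain ⟨f, hf, hxf⟩ := hFX x hx
  rw [mem_iUnion₂]
  refine ⟨f, hf, hUd ?_⟩
  show f - x ∈ U
  have : -(x - f) ∈ U := hxf
  rwa [neg_sub] at this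

end CharFamX

open CharFamX in
theorem prf_CharFam (h : S_CharTop) : S_CharFam := by
  intro G _ _ _ _ _ m hm a hTB
  classical
  set L0 : (ℕ →₀ ℤ) →+ G := (nsmulAddMonoidHom (α := G) m).comp (lc a) with hL0
  have hL0a : ∀ c, L0 c = m • lc a c := fun c => rfl
  set K0 : AddSubgroup G := L0.range.topologicalClosure with hK0
  have hr : ((L0.range : AddSubgroup G) : Set G) = {y : G | ∃ c : ℕ →₀ ℤ, y = m • lc a c} := by
    ext y
    constructor
    · rintro ⟨c, rfl⟩
      exact ⟨c, rfl⟩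
    · rintro ⟨c, rfl⟩
      exact ⟨c, rfl⟩
  have hcpt : IsCompact (K0 : Set G) := by
    have h1 : (K0 : Set G) = closure {y : G | ∃ c : ℕ →₀ ℤ, y = m • lc a c} := by
      rw [hK0, AddSubgroup.topologicalClosure_coe, hr]
    rw [h1]
    exact (tb _ hTB).closure.isCompact_of_isClosed isClosed_closure
  have : CompactSpace K0 := isCompact_iff_compactSpace.1 hcpt
  have hmem : ∀ c, L0 c ∈ K0 := fun c => L0.range.le_topologicalClosure ⟨c, rfl⟩
  let κ : (ℕ →₀ ℤ) →+ K0 := L0.codRestrict K0 hmem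
  have hκ : ∀ c, ((κ c : K0) : G) = m • lc a c := fun c => rfl
  choose w hw using fun z : Circle => root m hm z
  let L : {χ : AddChar K0 Circle // Continuous χ} → ((ℕ →₀ ℤ) →+ Additive Circle) := fun χ =>
    Finsupp.liftAddHom (fun i => zmultiplesHom (Additive Circle)
      (Additive.ofMul (w (χ.1 (κ (Finsupp.single i 1))))))
  let ψ : {χ : AddChar K0 Circle // Continuous χ} → AddChar (ℕ →₀ ℤ) Circle := fun χ =>
    { toFun := fun c => (L χ c).toMul
      map_zero_eq_one' := by rw [map_zero]; rfl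
      map_add_eq_mul' := fun x y => by rw [map_add]; rfl }
  have hψ : ∀ χ c, ψ χ (m • c) = χ.1 (κ c) := by
    intro χ c
    have h1 : (L χ).comp (nsmulAddMonoidHom m) = (AddChar.toAddMonoidHom χ.1).comp κ := by
      apply Finsupp.addHom_ext'
      intro i
      apply AddMonoidHom.ext_int
      have h2 : (L χ) (Finsupp.single i 1) =
          Additive.ofMul (w (χ.1 (κ (Finsupp.single i 1)))) := by
        simp only [L, Finsupp.liftAddHom_apply_single, zmultiplesHom_apply, one_zsmul]
      show (L χ) (m • Finsupp.single i 1) = Additive.ofMul (χ.1 (κ (Finsupp.single i 1)))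
      rw [map_nsmul, h2, ← ofMul_pow, hw]
    have h2 := DFunLike.congr_fun h1 c
    exact congrArg Additive.toMul h2
  refine ⟨{χ : AddChar K0 Circle // Continuous χ}, ψ, fun W hW => ?_⟩
  have hWK : ((↑) : K0 → G) ⁻¹' W ∈ 𝓝 (0 : K0) := by
    have : Tendsto ((↑) : K0 → G) (𝓝 0) (𝓝 0) := by
      simpa using (continuous_subtype_val (p := fun x => x ∈ K0)).tendsto (0 : K0)
    exact this hW
  obtain ⟨O, hO, hO'⟩ := h K0 _ hWK
  refine ⟨O, hO, fun c hc => ?_⟩
  have h1 : (fun χ : {χ : AddChar K0 Circle // Continuous χ} => χ.1 (κ c)) ∈ O := by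
    have h2 : (fun χ => ψ χ (m • c)) =
        (fun χ : {χ : AddChar K0 Circle // Continuous χ} => χ.1 (κ c)) := by
      funext χ
      exact hψ χ c
    rwa [h2] at hc
  exact hO' (κ c) h1

end Pool.Agent.Work.MP_7406cc_gt.PS

end

section

/-!
# CharTop: the characters of a compact group define its topology
-/

set_option autoImplicit false

open scoped Topology
open Filter Set

namespace Pool.Agent.Work.MP_7406cc_gt.PS

namespace CharTopX

theorem exists_char (K : Type) [AddCommGroup K] [TopologicalSpace K]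
    [IsTopologicalAddGroup K] [CompactSpace K] [T2Space K] (x : K) (hx : x ≠ 0) :
    ∃ χ : AddChar K Circle, Continuous χ ∧ χ x ≠ 1 := by
  have hT : T2Space (Multiplicative K) := inferInstanceAs (T2Space K)
  obtain ⟨χ, hχ⟩ := Pool.Agent.Work.MP_7406cc_gt.Char.exists_character
    (K := Multiplicative K) (Multiplicative.ofAdd x) (fun h => hx (by simpa using h))
  refine ⟨AddChar.toMonoidHomEquiv.symm χ.toMonoidHom, ?_, hχ⟩
  exact χ.continuous_toFun.comp continuous_ofAdd

end CharTopX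

open CharTopX

theorem prf_CharTop : S_CharTop := by
  intro K _ _ _ _ _ W hW
  let ev : K → ({χ : AddChar K Circle // Continuous χ} → Circle) := fun k χ => χ.1 k
  have hc : Continuous ev := continuous_pi fun χ => χ.2
  have hi : Function.Injective ev := by
    intro x y hxy
    by_contra hne
    obtain ⟨χ, h1, h2⟩ := exists_char K (x - y) (sub_ne_zero.2 hne)
    apply h2
    have h3 : χ x = χ y := congrFun hxy ⟨χ, h1⟩
    rw [AddChar.map_sub_eq_div, h3, div_self']
  have h0 : ev 0 = 1 := by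
    funext χ
    exact AddChar.map_zero_eq_one χ.1
  have he := (hc.isClosedEmbedding hi).isEmbedding
  rw [he.nhds_eq_comap 0, h0, mem_comap] at hW
  obtain ⟨O, hO, hOW⟩ := hW
  exact ⟨O, hO, fun k hk => hOW hk⟩

end Pool.Agent.Work.MP_7406cc_gt.PS

end

section

/-!
# Prodanov-Stoyanov: item ClosedSub
-/

set_option autoImplicit false

open scoped Topology
open Filter Set

namespace Pool.Agent.Work.MP_7406cc_gt.PS

namespace ClosedSubX

theorem tendsto_sub_zero (H : Type) [AddCommGroup H] [TopologicalSpace H]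
    [IsTopologicalAddGroup H] :
    Tendsto (fun p : H × H => p.1 - p.2) (𝓝 0 ×ˢ 𝓝 0) (𝓝 0) := by
  have h : Tendsto (fun p : H × H => p.1 - p.2) (𝓝 ((0 : H), (0 : H))) (𝓝 ((0 : H) - 0)) :=
    (continuous_fst.sub continuous_snd).tendsto (0, 0)
  rwa [nhds_prod_eq, sub_zero] at h

theorem half (H : Type) [AddCommGroup H] [TopologicalSpace H] [IsTopologicalAddGroup H]
    [T2Space H] (x : H) (hx : x ≠ 0) : ∃ V ∈ 𝓝 (0 : H), ∀ v ∈ V, ∀ w ∈ V, v + w ≠ x := by
  have h1 : ({x}ᶜ : Set H) ∈ 𝓝 (0 : H) := isOpen_compl_singleton.mem_nhds (by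
    simpa using hx.symm)
  obtain ⟨V, hV, hVV⟩ := exists_nhds_zero_half h1
  refine ⟨V, hV, fun v hv w hw h => ?_⟩
  have := hVV v hv w hw
  exact this (by rw [h]; exact mem_singleton x)

theorem nhds_zero {G : Type} [AddCommGroup G] [TopologicalSpace G] (H : AddSubgroup G) :
    @nhds H instTopologicalSpaceSubtype 0 = Filter.comap (Subtype.val : H → G) (𝓝 (0 : G)) :=
  nhds_subtype_eq_comap

theorem tag {G : Type} [AddCommGroup G] [TopologicalSpace G] [IsTopologicalAddGroup G]
    (H : AddSubgroup G) : @IsTopologicalAddGroup H instTopologicalSpaceSubtype _ := inferInstance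

end ClosedSubX

theorem prf_ClosedSub (h : S_Key) : S_ClosedSub := by
  intro G _ _ _ _ hG H hH t ht htg ht2
  have hN : ∀ V : Set H, V ∈ @nhds H t 0 → ∃ U ∈ 𝓝 (0 : G), ∀ w : H, (w : G) ∈ U → w ∈ V := by
    intro V hV
    have h1 : V ∈ @nhds H instTopologicalSpaceSubtype 0 := _root_.nhds_mono ht hV
    rw [ClosedSubX.nhds_zero H, mem_comap] at h1
    obtain ⟨U, hU, hUV⟩ := h1
    exact ⟨U, hU, fun w hw => hUV hw⟩
  have hB : Filter.map (Subtype.val : H → G) (@nhds H t 0) ≤ 𝓝 (0 : G) := by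
    apply h G hG
    · have h1 : pure (0 : H) ≤ @nhds H t 0 := @pure_le_nhds H t 0
      have h2 := Filter.map_mono (m := (Subtype.val : H → G)) h1
      rwa [Filter.map_pure] at h2
    · rw [Filter.prod_map_map_eq, Filter.tendsto_map'_iff]
      have h1 : ((fun p : G × G => p.1 - p.2) ∘
          fun p : H × H => ((p.1 : G), (p.2 : G))) =
          (Subtype.val : H → G) ∘ fun p : H × H => p.1 - p.2 := by
        funext p
        rfl
      rw [h1]
      exact Filter.tendsto_map.comp (@ClosedSubX.tendsto_sub_zero H _ t htg)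
    · intro x hx
      have hxH : x ∈ H := by
        by_contra hxn
        have h1 : (fun u : G => x - u) ⁻¹' ((H : Set G)ᶜ) ∈ 𝓝 (0 : G) := by
          apply (continuous_const.sub continuous_id).continuousAt.preimage_mem_nhds
          apply hH.isOpen_compl.mem_nhds
          simpa using hxn
        have h2 : (H : Set G) ∈ Filter.map (Subtype.val : H → G) (@nhds H t 0) := by
          rw [Filter.mem_map]
          have : (Subtype.val : H → G) ⁻¹' (H : Set G) = univ := by
            ext w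
            simp
          rw [this]
          exact Filter.univ_mem
        obtain ⟨v, hv, hxv⟩ := hx _ h1 _ h2
        apply hxv
        show x - (x - v) ∈ (H : Set G)
        rw [sub_sub_cancel]
        exact hv
      by_contra hx0
      have hx1 : (⟨x, hxH⟩ : H) ≠ 0 := fun e => hx0 (congrArg Subtype.val e)
      obtain ⟨V, hV, hVV⟩ := @ClosedSubX.half H _ t htg ht2 ⟨x, hxH⟩ hx1
      obtain ⟨U, hU, hUV⟩ := hN V hV
      obtain ⟨v, ⟨w, hw, rfl⟩, hxv⟩ := hx U hU (Subtype.val '' V) (Filter.image_mem_map hV)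
      have h1 : (⟨x, hxH⟩ : H) - w ∈ V := hUV _ hxv
      exact hVV _ h1 w hw (sub_add_cancel _ _)
  refine IsTopologicalAddGroup.ext htg (ClosedSubX.tag H) (le_antisymm ?_ ?_)
  · rw [ClosedSubX.nhds_zero H]
    exact Filter.map_le_iff_le_comap.1 hB
  · exact _root_.nhds_mono ht

end Pool.Agent.Work.MP_7406cc_gt.PS

end

section

/-!
# Every minimal Hausdorff abelian topological group is precompact: continuity of characters
-/

open scoped Topology
open Filter Set

namespace Pool.Agent.Work.MP_7406cc_gt.PS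

namespace ContCX

theorem sq_est {w : ℂ} (h : ‖w - 1‖ ≤ 1 / 2) : (3 / 2) * ‖w - 1‖ ≤ ‖w ^ 2 - 1‖ := by
  have e : w ^ 2 - 1 = (w + 1) * (w - 1) := by ring
  rw [e, norm_mul]
  apply mul_le_mul_of_nonneg_right _ (norm_nonneg _)
  have h2 : ‖(2 : ℂ)‖ ≤ ‖w + 1‖ + ‖w - 1‖ := by
    have : (2 : ℂ) = (w + 1) - (w - 1) := by ring
    calc ‖(2 : ℂ)‖ = ‖(w + 1) - (w - 1)‖ := by rw [← this]
      _ ≤ _ := norm_sub_le _ _
  have h3 : ‖(2 : ℂ)‖ = 2 := by simp
  linarith

theorem pow_est {z : ℂ} (k : ℕ) (h : ∀ j ≤ k, ‖z ^ (2 ^ j) - 1‖ ≤ 1 / 2) :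
    (3 / 2) ^ k * ‖z - 1‖ ≤ 1 / 2 := by
  have key : ∀ j ≤ k, (3 / 2 : ℝ) ^ j * ‖z - 1‖ ≤ ‖z ^ (2 ^ j) - 1‖ := by
    intro j
    induction j with
    | zero => intro _; simp
    | succ j ih =>
      intro hj
      have h1 := ih (by omega)
      have h2 := sq_est (h j (by omega))
      have e : z ^ (2 ^ (j + 1)) = (z ^ (2 ^ j)) ^ 2 := by
        rw [← pow_mul, pow_succ]
      rw [e, pow_succ]
      linarith
  exact (key k le_rfl).trans (h k le_rfl)

theorem near {G : Type} [AddCommGroup G] [TopologicalSpace G] [IsTopologicalAddGroup G]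
    (φ : AddChar G Circle) (U : Set G) (hU : U ∈ 𝓝 (0 : G))
    (h : ∀ x ∈ U, ‖(φ x : ℂ) - 1‖ ≤ 1 / 2) (ε : ℝ) (hε : 0 < ε) :
    ∀ᶠ x in 𝓝 (0 : G), ‖(φ x : ℂ) - 1‖ < ε := by
  obtain ⟨k, hk⟩ := exists_nat_gt (1 / ε)
  have hev : ∀ᶠ x in 𝓝 (0 : G), ∀ j ∈ Finset.range (k + 1), 2 ^ j • x ∈ U := by
    rw [Filter.eventually_all_finset]
    intro j _
    have hc : Continuous (fun x : G => 2 ^ j • x) := continuous_nsmul (2 ^ j)
    have h0 : Tendsto (fun x : G => 2 ^ j • x) (𝓝 0) (𝓝 0) := by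
      have := hc.tendsto (0 : G)
      rwa [nsmul_zero] at this
    exact h0 hU
  filter_upwards [hev] with x hx
  have h1 : (3 / 2 : ℝ) ^ k * ‖(φ x : ℂ) - 1‖ ≤ 1 / 2 := by
    apply pow_est
    intro j hj
    have h2 := h _ (hx j (Finset.mem_range.2 (by omega)))
    rw [AddChar.map_nsmul_eq_pow] at h2
    simpa using h2
  have h3 : 1 + (k : ℝ) * (1 / 2) ≤ (3 / 2 : ℝ) ^ k := by
    have := one_add_mul_le_pow (a := (1 / 2 : ℝ)) (by norm_num) k
    norm_num at this ⊢
    linarith
  have h4 : 1 < (k : ℝ) * ε := by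
    rwa [div_lt_iff₀ hε] at hk
  by_contra hcon
  push Not at hcon
  have h5 : (1 + (k : ℝ) * (1 / 2)) * ε ≤ (3 / 2 : ℝ) ^ k * ‖(φ x : ℂ) - 1‖ :=
    mul_le_mul h3 hcon hε.le (by positivity)
  nlinarith

end ContCX

theorem prf_ContC : S_ContC := by
  intro G _ _ _ φ U hU h
  rw [continuous_iff_continuousAt]
  intro x₀
  rw [ContinuousAt, Metric.tendsto_nhds]
  intro ε hε
  have h1 := ContCX.near φ U hU h ε hε
  have h2 : Tendsto (fun x : G => x - x₀) (𝓝 x₀) (𝓝 0) := by
    have hc : Continuous (fun x : G => x - x₀) := continuous_id.sub continuous_const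
    have := hc.tendsto x₀
    simpa using this
  filter_upwards [h2.eventually h1] with x hx
  have e : φ x = φ x₀ * φ (x - x₀) := by
    rw [← AddChar.map_add_eq_mul]; congr 1; abel
  have e2 : dist (φ x) (φ x₀) = ‖(φ x : ℂ) - (φ x₀ : ℂ)‖ := by
    exact Complex.dist_eq _ _
  rw [e2, e, Circle.coe_mul]
  have e3 : (φ x₀ : ℂ) * (φ (x - x₀) : ℂ) - (φ x₀ : ℂ) = (φ x₀ : ℂ) * ((φ (x - x₀) : ℂ) - 1) := by
    ring
  rw [e3, norm_mul, Circle.norm_coe, one_mul]
  exact hx

end Pool.Agent.Work.MP_7406cc_gt.PS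

end

section

/-!
# Item Cp
-/

namespace Pool.Agent.Work.MP_7406cc_gt.PS

theorem prf_Cp : S_Cp := by
  intro p hp
  refine ⟨fun i => ?_, fun n hn i r hni hnr => ?_, fun n hn hco i hni => ?_⟩
  · exact Nat.not_dvd_ordCompl hp (Nat.factorial_ne_zero i)
  · have hd : n ∣ i.factorial := Nat.dvd_factorial hn hni
    have h1 : n / p ^ n.factorization p ∣ cp p i := Nat.ordCompl_dvd_ordCompl_of_dvd hd p
    have h2 : p ^ n.factorization p * (n / p ^ n.factorization p) = n :=
      Nat.ordProj_mul_ordCompl_eq_self n p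
    have h3 : n.factorization p ≤ r + 1 := by
      have h4 : n.factorization p < n := Nat.factorization_lt p hn.ne'
      omega
    calc n = p ^ n.factorization p * (n / p ^ n.factorization p) := h2.symm
      _ ∣ p ^ (r + 1) * cp p i := Nat.mul_dvd_mul (pow_dvd_pow p h3) h1
  · have hd : n ∣ i.factorial := Nat.dvd_factorial hn hni
    have h2 : p ^ (i.factorial).factorization p * cp p i = i.factorial :=
      Nat.ordProj_mul_ordCompl_eq_self i.factorial p
    rw [← h2] at hd
    exact (Nat.Coprime.pow_right _ hco.symm).dvd_of_dvd_mul_left hd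

end Pool.Agent.Work.MP_7406cc_gt.PS

end

section

/-!
# DDmono: the divisible part is monotone
-/

set_option autoImplicit false

open scoped Topology
open Filter Set

namespace Pool.Agent.Work.MP_7406cc_gt.PS

theorem prf_DDmono : S_DDmono := by
  intro G _ _ _ H x hx
  unfold DD at hx ⊢
  rw [AddSubgroup.mem_iInf] at hx ⊢
  intro n
  have h1 : x ∈ closure (((nsmulAddMonoidHom (α := H) n.factorial).range : AddSubgroup H) : Set H) :=
    hx n
  change (x : G) ∈ closure (((nsmulAddMonoidHom (α := G) n.factorial).range : AddSubgroup G) : Set G)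
  refine map_mem_closure (f := fun y : H => (y : G)) continuous_subtype_val h1 ?_
  rintro _ ⟨y, rfl⟩
  exact ⟨(y : G), rfl⟩

end Pool.Agent.Work.MP_7406cc_gt.PS

end

section

open scoped Topology
open Filter Set

namespace Pool.Agent.Work.MP_7406cc_gt.PS

namespace DcompX

theorem isClosed_DD (G : Type) [AddCommGroup G] [TopologicalSpace G] [IsTopologicalAddGroup G] :
    IsClosed (DD G : Set G) := by
  unfold DD
  rw [AddSubgroup.coe_iInf]
  exact isClosed_iInter fun n => AddSubgroup.isClosed_topologicalClosure _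

theorem near {G : Type} [AddCommGroup G] [TopologicalSpace G] [IsTopologicalAddGroup G]
    {d : G} (hd : d ∈ DD G) (n : ℕ) {U : Set G} (hU : U ∈ 𝓝 (0 : G)) :
    ∃ x : G, d - n.factorial • x ∈ U := by
  have h1 : d ∈ (nsmulAddMonoidHom (α := G) n.factorial).range.topologicalClosure :=
    (AddSubgroup.mem_iInf.1 hd) n
  have h2 : d ∈ closure ((nsmulAddMonoidHom (α := G) n.factorial).range : Set G) := h1
  have h3 : {y : G | d - y ∈ U} ∈ 𝓝 d := by
    have h4 : Tendsto (fun y : G => d - y) (𝓝 d) (𝓝 (d - d)) :=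
      (continuous_const.sub continuous_id).tendsto d
    rw [sub_self] at h4
    exact h4 hU
  obtain ⟨y, hy1, hy2⟩ := mem_closure_iff_nhds.1 h2 _ h3
  obtain ⟨x, rfl⟩ := hy2
  exact ⟨x, hy1⟩

end DcompX

theorem prf_Dcomp : S_Dcomp := by
  intro G _ _ _ _ _ hBd
  refine TotallyBounded.isCompact_of_isClosed ?_ (DcompX.isClosed_DD G)
  rw [totallyBounded_iff_subset_finite_iUnion_nhds_zero]
  intro U hU
  obtain ⟨V, hV, hVU⟩ : ∃ V ∈ 𝓝 (0 : G), ∀ v ∈ V, ∀ w ∈ V, v + w ∈ U :=
    exists_nhds_zero_half hU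
  obtain ⟨k, hk, F, hF, hcov⟩ := hBd V hV
  refine ⟨F, hF, ?_⟩
  intro d hd
  obtain ⟨x, hx⟩ := DcompX.near hd k hV
  have hk2 : k.factorial • x = k • ((k - 1).factorial • x) := by
    rw [smul_smul, Nat.mul_factorial_pred hk.ne']
  obtain ⟨f, hf, hfx⟩ := hcov (k.factorial • x) ⟨_, hk2⟩
  simp only [mem_iUnion]
  refine ⟨f, hf, ?_⟩
  rw [Set.mem_vadd_set]
  exact ⟨d - f, by simpa using hVU _ hx _ hfx, by simp⟩

end Pool.Agent.Work.MP_7406cc_gt.PS

end

section

/-!
# Every minimal Hausdorff abelian topological group is precompact: divisibility of `DD`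
-/

open scoped Topology
open Filter Set

namespace Pool.Agent.Work.MP_7406cc_gt.PS

namespace DdivX

theorem mem_DD {G : Type} [AddCommGroup G] [TopologicalSpace G] [IsTopologicalAddGroup G] {d : G}
    (hd : d ∈ DD G) (n : ℕ) : d ∈ closure {y : G | ∃ x : G, n.factorial • x = y} := by
  have h := (AddSubgroup.mem_iInf.1 hd) n
  exact h

theorem close {G : Type} [AddCommGroup G] [TopologicalSpace G] [IsTopologicalAddGroup G] {d : G}
    {S : Set G} (hd : d ∈ closure S) {U : Set G} (hU : U ∈ 𝓝 (0 : G)) :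
    ∃ y ∈ S, d - y ∈ U := by
  have h1 : Tendsto (fun y : G => d - y) (𝓝 d) (𝓝 0) := by
    have : ContinuousAt (fun y : G => d - y) d := by fun_prop
    have h2 := this.tendsto
    simpa using h2
  obtain ⟨y, hy1, hy2⟩ := mem_closure_iff_nhds.1 hd _ (h1 hU)
  exact ⟨y, hy2, hy1⟩

theorem close' {G : Type} [AddCommGroup G] [TopologicalSpace G] [IsTopologicalAddGroup G] {d : G}
    {S : Set G} (h : ∀ U ∈ 𝓝 (0 : G), ∃ y ∈ S, d - y ∈ U) : d ∈ closure S := by
  rw [mem_closure_iff_nhds]
  intro t ht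
  have h1 : Tendsto (fun u : G => d - u) (𝓝 0) (𝓝 d) := by
    have : ContinuousAt (fun y : G => d - y) 0 := by fun_prop
    have h2 := this.tendsto
    simpa using h2
  obtain ⟨y, hy, hyU⟩ := h _ (h1 ht)
  have h3 : d - (d - y) ∈ t := hyU
  rw [sub_sub_cancel] at h3
  exact ⟨y, h3, hy⟩

end DdivX

open DdivX in
theorem prf_Ddiv (h1 : S_Dcomp) (h2 : S_Dnear) : S_Ddiv := by
  intro G _ _ _ _ _ hB m hm d hd
  have hcomp : IsCompact ((fun e : G => m • e) '' (DD G : Set G)) :=
    (h1 G hB).image (continuous_nsmul m)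
  have hcl : d ∈ closure ((fun e : G => m • e) '' (DD G : Set G)) := by
    apply close'
    intro U hU
    obtain ⟨U₂, hU₂, hsum⟩ := exists_nhds_zero_half hU
    have hU₁ : (fun x : G => m • x) ⁻¹' U₂ ∈ 𝓝 (0 : G) := by
      have hc : Tendsto (fun x : G => m • x) (𝓝 0) (𝓝 (m • (0 : G))) :=
        (continuous_nsmul m).tendsto 0
      rw [smul_zero] at hc
      exact hc hU₂
    obtain ⟨n, hn, H⟩ := h2 G hB _ hU₁
    obtain ⟨y, ⟨x, rfl⟩, hx⟩ := close (mem_DD hd (m * n)) hU₂
    obtain ⟨c, hc⟩ := Nat.dvd_factorial (Nat.mul_pos hm hn) (le_refl (m * n))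
    obtain ⟨e, he, hu⟩ := H (c • x)
    refine ⟨m • e, ⟨e, he, rfl⟩, ?_⟩
    have h3 : m • (n • (c • x) - e) ∈ U₂ := hu
    have h4 : d - m • e = (d - (m * n).factorial • x) + m • (n • (c • x) - e) := by
      rw [hc, smul_sub, smul_smul, smul_smul]
      abel
    rw [h4]
    exact hsum _ hx _ h3
  rw [hcomp.isClosed.closure_eq] at hcl
  obtain ⟨e, he, hed⟩ := hcl
  exact ⟨e, he, hed⟩

end Pool.Agent.Work.MP_7406cc_gt.PS

end

section

/-! A group with a dense minimal subgroup is minimal. -/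

open scoped Topology
open Filter Set

namespace Pool.Agent.Work.MP_7406cc_gt.PS

namespace DenseMinX

theorem ind (G K : Type) [AddCommGroup G] [AddCommGroup K] (t : TopologicalSpace K)
    (ht : IsTopologicalAddGroup K) (ht2 : T2Space K) (ι : G →+ K) (hι : Function.Injective ι) :
    @IsTopologicalAddGroup G (TopologicalSpace.induced ι t) _ ∧
      @T2Space G (TopologicalSpace.induced ι t) :=
  ⟨topologicalAddGroup_induced ι,
    @T2Space.of_injective_continuous G K (TopologicalSpace.induced ι t) t ht2 ι hι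
      continuous_induced_dom⟩

theorem mem_ind (G K : Type) [AddCommGroup G] [AddCommGroup K] (t : TopologicalSpace K)
    (ι : G →+ K) (V : Set G) (hV : V ∈ @nhds G (TopologicalSpace.induced ι t) 0) :
    ∃ W, IsOpen W ∧ 0 ∈ W ∧ ι ⁻¹' W ⊆ V := by
  rw [nhds_induced, map_zero, mem_comap] at hV
  obtain ⟨W₀, hW₀, hsub⟩ := hV
  obtain ⟨W, hWW, hWo, h0W⟩ := mem_nhds_iff.1 hW₀
  exact ⟨W, hWo, h0W, (preimage_mono hWW).trans hsub⟩

end DenseMinX

theorem prf_DenseMin : S_DenseMin := by
  intro G K _ τG _ _ τK _ _ ι hι hd hmin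
  have hind : τG = TopologicalSpace.induced ι τK := hι.eq_induced
  have hcont : Continuous ι := hι.continuous
  have hreg : ∀ S ∈ 𝓝 (0 : K), ∃ V ∈ 𝓝 (0 : K), IsClosed V ∧ V ⊆ S := fun S hS => by
    obtain ⟨V, hV, hVc, hVS⟩ := exists_mem_nhds_isClosed_subset hS
    exact ⟨V, hV, hVc, hVS⟩
  have hpre : ∀ V ∈ 𝓝 (0 : K), ι ⁻¹' V ∈ @nhds G τG 0 := fun V hV => by
    refine hcont.continuousAt ?_
    rwa [map_zero]
  have hdense : ∀ W V : Set K, IsOpen W → IsClosed V → (∀ g, ι g ∈ W → ι g ∈ V) → W ⊆ V := by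
    intro W V hW hV h
    refine (hd.open_subset_closure_inter hW).trans (closure_minimal ?_ hV)
    rintro _ ⟨hw, g, rfl⟩
    exact h g hw
  have hτ : @IsTopologicalAddGroup K τK _ := inferInstance
  have hinj : Function.Injective ι := hι.injective
  intro t hle ht ht2
  obtain ⟨h1, h2⟩ := DenseMinX.ind G K t ht ht2 ι hinj
  have h3 : τG ≤ TopologicalSpace.induced ι t := by
    rw [hind]
    exact induced_mono hle
  have h4 : TopologicalSpace.induced ι t = τG := hmin _ h3 h1 h2
  refine @IsTopologicalAddGroup.ext K _ t τK ht hτ (le_antisymm ?_ ?_)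
  · intro S hS
    obtain ⟨V, hV, hVc, hVS⟩ := hreg S hS
    have h5 := hpre V hV
    rw [← h4] at h5
    obtain ⟨W, hWo, h0W, hsub⟩ := DenseMinX.mem_ind G K t ι _ h5
    have h6 : W ⊆ V := hdense W V (hle W hWo) hVc fun g hg => hsub hg
    exact (@mem_nhds_iff K t 0 S).2 ⟨W, h6.trans hVS, hWo, h0W⟩
  · exact @nhds_mono K τK t 0 hle

end Pool.Agent.Work.MP_7406cc_gt.PS

end

section

open scoped Topology Pointwise
open Filter Set

namespace Pool.Agent.Work.MP_7406cc_gt.PS

theorem prf_Dnear : S_Dnear := by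
  intro G _ _ _ _ _ hBd U hU
  by_contra hcon
  push Not at hcon
  have hx : ∀ n : ℕ, ∃ x : G, 0 < n → ∀ d ∈ DD G, n • x - d ∉ U := by
    intro n
    by_cases hn : 0 < n
    · obtain ⟨x, hx⟩ := hcon n hn
      exact ⟨x, fun _ => hx⟩
    · exact ⟨0, fun h => absurd h hn⟩
  choose x hx using hx
  set y : ℕ → G := fun k => k.factorial • x k.factorial with hy
  have hmul : ∀ m k : ℕ, m ∣ k.factorial → ∃ z : G, y k = m • z := by
    rintro m k ⟨c, hc⟩
    refine ⟨c • x k.factorial, ?_⟩
    simp only [hy]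
    rw [← mul_smul, ← hc]
  have htb : TotallyBounded (range y) := by
    rw [totallyBounded_iff_subset_finite_iUnion_nhds_zero]
    intro V hV
    obtain ⟨k₀, hk₀, F, hF, hFV⟩ := hBd V hV
    refine ⟨F ∪ y '' {k | k < k₀}, hF.union ((Set.finite_lt_nat k₀).image y), ?_⟩
    rintro _ ⟨k, rfl⟩
    rw [mem_iUnion₂]
    by_cases hk : k < k₀
    · refine ⟨y k, Or.inr ⟨k, hk, rfl⟩, ?_⟩
      rw [Set.mem_vadd_set_iff_neg_vadd_mem]
      simpa using mem_of_mem_nhds hV
    · push Not at hk
      obtain ⟨z, hz⟩ := hmul k₀ k (Nat.dvd_factorial hk₀ hk)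
      obtain ⟨f, hf, hfV⟩ := hFV (y k) ⟨z, hz⟩
      refine ⟨f, Or.inl hf, ?_⟩
      rw [Set.mem_vadd_set_iff_neg_vadd_mem]
      rw [vadd_eq_add, neg_add_eq_sub]
      exact hfV
  have hcpt : IsCompact (closure (range y)) :=
    htb.closure.isCompact_of_isClosed isClosed_closure
  obtain ⟨ys, _, hys⟩ := hcpt.exists_clusterPt (f := map y atTop)
    (le_principal_iff.2 (mem_map.2 (univ_mem' fun k => subset_closure ⟨k, rfl⟩)))
  have hD : ys ∈ DD G := by
    unfold DD
    rw [AddSubgroup.mem_iInf]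
    intro m
    change ys ∈ closure (((nsmulAddMonoidHom (α := G) m.factorial).range : AddSubgroup G) : Set G)
    rw [mem_closure_iff_clusterPt]
    refine hys.mono (le_principal_iff.2 (mem_map.2 ?_))
    filter_upwards [eventually_ge_atTop m] with k hk
    obtain ⟨z, hz⟩ := hmul m.factorial k (Nat.factorial_dvd_factorial hk)
    exact ⟨z, hz.symm⟩
  have hnh : {z : G | z - ys ∈ U} ∈ 𝓝 ys := by
    have hc : Tendsto (fun z : G => z - ys) (𝓝 ys) (𝓝 0) := by
      have h1 : Continuous fun z : G => z - ys := continuous_id.sub continuous_const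
      have h2 := h1.tendsto ys
      rwa [sub_self] at h2
    exact hc hU
  have hfreq := clusterPt_iff_frequently.1 hys _ hnh
  rw [frequently_map] at hfreq
  obtain ⟨k, hk⟩ := hfreq.exists
  exact hx k.factorial (Nat.factorial_pos k) ys hD hk

end Pool.Agent.Work.MP_7406cc_gt.PS

end
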