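import Pool.Agent.Work.MP_7406cc_gt.PS.Stmts

/-! Bundle of small proof modules (one section per former module). -/

section

set_option autoImplicit false

open scoped Topology
open Filter Set

namespace Pool.Agent.Work.MP_7406cc_gt.PS

namespace ExtX

lemma norm_sub_circle (a b : Circle) : ‖(a : ℂ) - (b : ℂ)‖ = ‖((a * b⁻¹ : Circle) : ℂ) - 1‖ := by
  have hb : (b : ℂ) ≠ 0 := Circle.coe_ne_zero b
  have h1 : ((a * b⁻¹ : Circle) : ℂ) - 1 = ((a : ℂ) - b) * (b : ℂ)⁻¹ := by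
    rw [Circle.coe_mul, Circle.coe_inv]
    field_simp
  rw [h1, norm_mul, norm_inv, Circle.norm_coe]
  simp

lemma exists_nhd {G : Type} [AddCommGroup G] [TopologicalSpace G] [IsTopologicalAddGroup G]
    (W0 : Set G) (h0 : W0 ∈ 𝓝 (0 : G)) : ∃ W ∈ 𝓝 (0 : G), (∀ a ∈ W, -a ∈ W) ∧
      ∀ a ∈ W, ∀ b ∈ W, ∀ c ∈ W, a + b + c ∈ W0 := by
  have hc : Tendsto (fun p : G × G × G => p.1 + p.2.1 + p.2.2) (𝓝 0 ×ˢ 𝓝 0 ×ˢ 𝓝 0) (𝓝 (0 : G)) := by
    have : Continuous (fun p : G × G × G => p.1 + p.2.1 + p.2.2) := by fun_prop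
    have h := this.tendsto (0, 0, 0)
    simp only [add_zero] at h
    rwa [nhds_prod_eq, nhds_prod_eq] at h
  have h1 := hc h0
  rw [mem_map, mem_prod_iff] at h1
  obtain ⟨A, hA, B, hB, hAB⟩ := h1
  rw [mem_prod_iff] at hB
  obtain ⟨B1, hB1, B2, hB2, hBB⟩ := hB
  have hn : Tendsto (fun x : G => -x) (𝓝 0) (𝓝 (0 : G)) := by
    have := (continuous_neg (G := G)).tendsto 0
    simpa using this
  let V := A ∩ (B1 ∩ B2)
  have hV : V ∈ 𝓝 (0 : G) := inter_mem hA (inter_mem hB1 hB2)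
  refine ⟨V ∩ (fun x => -x) ⁻¹' V, inter_mem hV (hn hV), ?_, ?_⟩
  · intro a ha
    refine ⟨ha.2, ?_⟩
    show - -a ∈ V
    rw [neg_neg]
    exact ha.1
  · intro a ha b hb c hc
    exact hAB (Set.mk_mem_prod ha.1.1 (hBB (Set.mk_mem_prod hb.1.2.1 hc.1.2.2)))

end ExtX

open ExtX in
theorem prf_Ext (h1 : S_HU) (h2 : S_NSS) (h3 : S_ContC) : S_Ext := by
  intro G _ _ _ D hD χ hχ
  -- a neighbourhood on which the character is close to one
  obtain ⟨W0, hW0, hW0'⟩ : ∃ W0 ∈ 𝓝 (0 : G), ∀ d : D, (d : G) ∈ W0 → ‖(χ d : ℂ) - 1‖ ≤ 1 / 100 := by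
    have hc : Continuous fun d : D => ‖(χ d : ℂ) - 1‖ :=
      ((continuous_subtype_val.comp hχ).sub continuous_const).norm
    have h0 : (fun d : D => ‖(χ d : ℂ) - 1‖) 0 < 1 / 100 := by
      simp
    have hev := (hc.tendsto 0).eventually (gt_mem_nhds h0)
    have hmem : {d : D | ‖(χ d : ℂ) - 1‖ < 1 / 100} ∈ 𝓝 (0 : D) := hev
    rw [mem_nhds_subtype] at hmem
    obtain ⟨u, hu, hsub⟩ := hmem
    exact ⟨u, by simpa using hu, fun d hd => (hsub hd).le⟩
  obtain ⟨W, hW, hWn, hW3⟩ := exists_nhd W0 hW0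
  have hW0m : (0 : G) ∈ W := mem_of_mem_nhds hW
  obtain ⟨n, hn, hnd⟩ := hD W hW
  choose d hdD hdW using hnd
  let q : G → Circle := fun x => χ ⟨d x, hdD x⟩
  have hχsub : ∀ a b : D, ‖(χ a : ℂ) - (χ b : ℂ)‖ = ‖(χ (a - b) : ℂ) - 1‖ := by
    intro a b
    rw [norm_sub_circle, AddChar.map_sub_eq_div, div_eq_mul_inv]
  have hq : ∀ x y, ‖(q (x + y) : ℂ) - (q x : ℂ) * (q y : ℂ)‖ ≤ 1 / 100 := by
    intro x y
    have e1 : (q x : ℂ) * (q y : ℂ) = (χ (⟨d x, hdD x⟩ + ⟨d y, hdD y⟩) : ℂ) := by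
      rw [AddChar.map_add_eq_mul, Circle.coe_mul]
    rw [e1]
    show ‖(χ ⟨d (x + y), hdD (x + y)⟩ : ℂ) - _‖ ≤ _
    rw [hχsub]
    apply hW0'
    have e2 : ((⟨d (x + y), hdD (x + y)⟩ - (⟨d x, hdD x⟩ + ⟨d y, hdD y⟩) : D) : G) =
        -(n • (x + y) - d (x + y)) + (n • x - d x) + (n • y - d y) := by
      rw [AddSubgroup.coe_sub, AddSubgroup.coe_add, nsmul_add]
      abel
    rw [e2]
    exact hW3 _ (hWn _ (hdW _)) _ (hdW _) _ (hdW _)
  obtain ⟨φ, hφ⟩ := h1 G q hq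
  refine ⟨n, hn, φ, ?_, ?_⟩
  · refine h3 G φ {x | n • x ∈ W} ?_ ?_
    · have hc : Tendsto (fun x : G => n • x) (𝓝 0) (𝓝 (0 : G)) := by
        have := (continuous_nsmul (M := G) n).tendsto 0
        simpa using this
      exact hc hW
    · intro x hx
      have h4 : ‖(q x : ℂ) - 1‖ ≤ 1 / 100 := by
        apply hW0'
        have e : ((⟨d x, hdD x⟩ : D) : G) = n • x + (-(n • x - d x)) + 0 := by
          show d x = _
          abel
        rw [e]
        exact hW3 _ hx _ (hWn _ (hdW x)) _ hW0m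
      have h5 := hφ x
      calc ‖(φ x : ℂ) - 1‖ = ‖((φ x : ℂ) - (q x : ℂ)) + ((q x : ℂ) - 1)‖ := by ring_nf
        _ ≤ ‖(φ x : ℂ) - (q x : ℂ)‖ + ‖(q x : ℂ) - 1‖ := norm_add_le _ _
        _ ≤ 1 / 2 := by linarith
  · intro x
    -- the bound for all elements
    have hb : ∀ y : D, ‖((φ (y : G) * ((χ y) ^ n)⁻¹ : Circle) : ℂ) - 1‖ ≤ 1 / 2 := by
      intro y
      rw [← norm_sub_circle]
      have e1 : (χ y) ^ n = χ (n • y) := (AddChar.map_nsmul_eq_pow χ n y).symm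
      have h6 : ‖(q (y : G) : ℂ) - ((χ y) ^ n : Circle)‖ ≤ 1 / 100 := by
        rw [e1]
        show ‖(χ ⟨d (y : G), hdD y⟩ : ℂ) - _‖ ≤ _
        rw [hχsub]
        apply hW0'
        have e : ((⟨d (y : G), hdD y⟩ - n • y : D) : G) = (-(n • (y : G) - d y)) + 0 + 0 := by
          rw [AddSubgroup.coe_sub, AddSubgroup.coe_nsmul]
          abel
        rw [e]
        exact hW3 _ (hWn _ (hdW _)) _ hW0m _ hW0m
      have h7 := hφ (y : G)
      calc ‖(φ (y : G) : ℂ) - ((χ y) ^ n : Circle)‖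
          = ‖((φ (y : G) : ℂ) - (q (y : G) : ℂ)) + ((q (y : G) : ℂ) - ((χ y) ^ n : Circle))‖ := by
            congr 1
            ring
        _ ≤ _ := norm_add_le _ _
        _ ≤ 1 / 2 := by linarith
    have hz : φ (x : G) * ((χ x) ^ n)⁻¹ = 1 := by
      apply h2
      intro k
      have h8 := hb (2 ^ k • x)
      have e : φ ((2 ^ k • x : D) : G) * ((χ (2 ^ k • x)) ^ n)⁻¹ =
          (φ (x : G) * ((χ x) ^ n)⁻¹) ^ (2 ^ k) := by
        rw [AddSubgroup.coe_nsmul, AddChar.map_nsmul_eq_pow, AddChar.map_nsmul_eq_pow, mul_pow,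
          inv_pow, ← pow_mul, ← pow_mul, mul_comm (2 ^ k) n]
      rw [e] at h8
      exact h8
    exact mul_inv_eq_one.mp hz

end Pool.Agent.Work.MP_7406cc_gt.PS

end

section

open scoped Topology
open Filter Set

namespace Pool.Agent.Work.MP_7406cc_gt.PS

theorem IndepX.nbhd {G : Type} [AddCommGroup G] [TopologicalSpace G]
    [IsTopologicalAddGroup G] (p r : ℕ) (W' : ℕ → Set G) (h : ∀ s ≤ r, W' s ∈ 𝓝 (0 : G)) :
    {u : G | ∀ q < p, ∀ s ≤ r, q • u ∈ W' s} ∈ 𝓝 (0 : G) := by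
  have h1 : ∀ q : ℕ, ∀ s ≤ r, ∀ᶠ u in 𝓝 (0 : G), q • u ∈ W' s := by
    intro q s hs
    have hc : Continuous fun u : G => q • u := continuous_const_smul q
    have := hc.tendsto 0
    rw [smul_zero] at this
    exact this (h s hs)
  have h2 : ∀ᶠ u in 𝓝 (0 : G), ∀ q ∈ Finset.range p, ∀ s ∈ Finset.range (r + 1),
      q • u ∈ W' s := by
    rw [Filter.eventually_all_finset]
    intro q _
    rw [Filter.eventually_all_finset]
    intro s hs
    exact h1 q s (by simpa [Nat.lt_succ_iff] using hs)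
  filter_upwards [h2] with u hu q hq s hs
  exact hu q (Finset.mem_range.2 hq) s (Finset.mem_range.2 (by omega))

theorem IndepX.inv {p : ℕ} (hp : p.Prime) (x : ℤ) (hx : ¬ (p : ℤ) ∣ x) :
    ∃ q : ℕ, q < p ∧ ∃ t : ℤ, (q : ℤ) * x = 1 + p * t := by
  have : Fact p.Prime := ⟨hp⟩
  have hx' : (x : ZMod p) ≠ 0 := by
    intro h
    exact hx ((ZMod.intCast_zmod_eq_zero_iff_dvd x p).1 h)
  refine ⟨((x : ZMod p)⁻¹).val, ZMod.val_lt _, ?_⟩
  have h1 : (((((x : ZMod p)⁻¹).val : ℤ) * x - 1 : ℤ) : ZMod p) = 0 := by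
    push_cast
    rw [ZMod.natCast_zmod_val, inv_mul_cancel₀ hx', sub_self]
  obtain ⟨t, ht⟩ := (ZMod.intCast_zmod_eq_zero_iff_dvd _ p).1 h1
  exact ⟨t, by linarith⟩

theorem IndepX.factor {p r : ℕ} (x : ℤ) (hx : ¬ (p : ℤ) ^ (r + 1) ∣ x) :
    ∃ s ≤ r, ∃ y : ℤ, x = (p : ℤ) ^ s * y ∧ ¬ (p : ℤ) ∣ y := by
  classical
  have hex : ∃ k, ¬ (p : ℤ) ^ (k + 1) ∣ x := ⟨r, hx⟩
  have hs := Nat.find_spec hex
  have hle : Nat.find hex ≤ r := Nat.find_min' hex hx
  have hd : (p : ℤ) ^ (Nat.find hex) ∣ x := by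
    rcases Nat.eq_zero_or_pos (Nat.find hex) with h | h
    · rw [h, pow_zero]; exact one_dvd _
    · have := Nat.find_min hex (m := Nat.find hex - 1) (by omega)
      rw [not_not] at this
      rwa [Nat.sub_add_cancel h] at this
  obtain ⟨y, hy⟩ := hd
  refine ⟨Nat.find hex, hle, y, hy, ?_⟩
  rintro ⟨z, hz⟩
  apply hs
  refine ⟨z, ?_⟩
  rw [hz] at hy
  rw [pow_succ]
  generalize Nat.find hex = n at hy
  rw [hy]
  ring

theorem IndepX.lc_eq {G : Type} [AddCommGroup G] (a : ℕ → G) (c : ℕ →₀ ℤ) (n : ℕ)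
    (h : ∀ j, n ≤ j → c j = 0) : lc a c = ∑ j ∈ Finset.range n, c j • a j := by
  have : lc a c = c.sum fun i x => x • a i := by
    simp [lc, Finsupp.linearCombination_apply]
  rw [this]
  apply Finsupp.sum_of_support_subset
  · intro j hj
    rw [Finset.mem_range]
    by_contra hlt
    exact (Finsupp.mem_support_iff.1 hj) (h j (not_lt.1 hlt))
  · intro j _
    exact zero_smul _ _

theorem prf_Indep (h : S_Cp) : S_Indep := by
  classical
  intro G _ _ _ p hp R hR W' hW g a ha hsel r hr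
  refine ⟨_, IndepX.nbhd p r W' (fun s hs => hW s (hR r hr s hs)), ?_⟩
  intro c hc
  by_contra hcon
  push Not at hcon
  obtain ⟨i₀, hi₀, hi₀'⟩ := hcon
  -- largest index
  set S := c.support.filter (fun i => r ≤ i ∧ ¬ (p : ℤ) ^ (r + 1) ∣ c i) with hS
  have hSm : ∀ j, j ∈ S ↔ r ≤ j ∧ ¬ (p : ℤ) ^ (r + 1) ∣ c j := by
    intro j
    rw [hS, Finset.mem_filter, Finsupp.mem_support_iff]
    constructor
    · exact fun hh => hh.2
    · intro hh
      refine ⟨?_, hh⟩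
      intro h0
      exact hh.2 (h0 ▸ dvd_zero _)
  have hSne : S.Nonempty := ⟨i₀, (hSm i₀).2 ⟨hi₀, hi₀'⟩⟩
  obtain ⟨i, hiS, hmax⟩ : ∃ i ∈ S, ∀ j ∈ S, j ≤ i :=
    ⟨S.max' hSne, S.max'_mem hSne, fun j hj => S.le_max' j hj⟩
  obtain ⟨hri, hidv⟩ := (hSm i).1 hiS
  have htail : ∀ j, ∃ e : ℤ, c (i + 1 + j) = (p : ℤ) ^ (r + 1) * e := by
    intro j
    by_contra hno
    have : i + 1 + j ∈ S := by
      rw [hSm]
      refine ⟨by omega, ?_⟩
      rintro ⟨e, he⟩
      exact hno ⟨e, he⟩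
    have := hmax _ this
    omega
  choose e he using htail
  obtain ⟨s, hsr, c', hc', hpc'⟩ := IndepX.factor (p := p) (r := r) (c i) hidv
  have hp' : Prime (p : ℤ) := Nat.prime_iff_prime_int.1 hp
  have hcop : ¬ (p : ℤ) ∣ c' * (cp p i : ℤ) := by
    intro hd
    rcases hp'.dvd_or_dvd hd with h1 | h1
    · exact hpc' h1
    · exact (h p hp).1 i (Int.natCast_dvd_natCast.1 h1)
  obtain ⟨q, hqp, t, hqt⟩ := IndepX.inv hp _ hcop
  -- the sum
  set k := c.support.sup id + 1 with hk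
  have hzero : ∀ j, i + 1 + k ≤ j → c j = 0 := by
    intro j hj
    by_contra h0
    have : j ≤ c.support.sup id := Finset.le_sup (f := id) (Finsupp.mem_support_iff.2 h0)
    omega
  have hlc := IndepX.lc_eq a c (i + 1 + k) hzero
  rw [Finset.sum_range_add, Finset.sum_range_succ] at hlc
  have ht1 : ∑ x ∈ Finset.range k, c (i + 1 + x) • a (i + 1 + x) =
      ((p : ℤ) ^ (r + 1)) • ∑ x ∈ Finset.range k, e x • a (i + 1 + x) := by
    rw [Finset.smul_sum]
    refine Finset.sum_congr rfl fun x _ => ?_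
    rw [he x, mul_smul]
  rw [ht1] at hlc
  set y1 := ∑ x ∈ Finset.range k, e x • a (i + 1 + x) with hy1
  have hpos : (0 : ℤ) < (p : ℤ) ^ (i + 1) := pow_pos (by exact_mod_cast hp.pos) _
  have hS1 : (q : ℤ) • ∑ j ∈ Finset.range i, c j • a j =
      -(∑ j ∈ Finset.range i, ((-((q : ℤ) * c j)) % (p : ℤ) ^ (i + 1)) • a j) -
        ((p : ℤ) ^ (i + 1)) • ∑ j ∈ Finset.range i,
          ((-((q : ℤ) * c j)) / (p : ℤ) ^ (i + 1)) • a j := by
    rw [Finset.smul_sum, Finset.smul_sum, ← Finset.sum_neg_distrib, ← Finset.sum_sub_distrib]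
    refine Finset.sum_congr rfl fun j _ => ?_
    rw [← mul_smul, ← mul_smul, ← neg_smul, ← sub_smul]
    congr 1
    have := Int.emod_add_mul_ediv (-((q : ℤ) * c j)) ((p : ℤ) ^ (i + 1))
    linarith
  set S3 := ∑ j ∈ Finset.range i, ((-((q : ℤ) * c j)) / (p : ℤ) ^ (i + 1)) • a j with hS3
  have hin := hc q hqp s hsr
  refine hsel i s (le_trans hsr hri) (hR r hr s hsr)
    (fun j => (-((q : ℤ) * c j)) % (p : ℤ) ^ (i + 1))
    (fun j => ⟨Int.emod_nonneg _ (ne_of_gt hpos), Int.emod_lt_of_pos _ hpos⟩)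
    (-(t • g i) + ((p : ℤ) ^ (i - s)) • S3 - ((q : ℤ) * (p : ℤ) ^ (r - s)) • y1) ?_
  convert hin using 1
  rw [hlc, ← natCast_zsmul _ q, smul_add, smul_add, hS1, ha i]
  have e1 : (p : ℤ) ^ (i + 1) = (p : ℤ) ^ (s + 1) * (p : ℤ) ^ (i - s) := by
    rw [← pow_add]; congr 1; omega
  have e2 : (p : ℤ) ^ (r + 1) = (p : ℤ) ^ (s + 1) * (p : ℤ) ^ (r - s) := by
    rw [← pow_add]; congr 1; omega
  have e3 : (q : ℤ) • c i • cp p i • g i =
      ((p : ℤ) ^ s) • g i + ((p : ℤ) ^ (s + 1) * t) • g i := by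
    rw [← natCast_zsmul (g i) (cp p i), ← mul_smul, ← mul_smul, ← add_smul]
    congr 1
    rw [hc', pow_succ]
    linear_combination ((p : ℤ) ^ s) * hqt
  rw [e3, e1, e2, ← natCast_zsmul (g i) (p ^ s), ← natCast_zsmul _ (p ^ (s + 1))]
  push_cast
  module

end Pool.Agent.Work.MP_7406cc_gt.PS

end

section

/-!
# A group filter which is independent of the topology converges to zero
-/

open scoped Topology
open Filter Set

namespace Pool.Agent.Work.MP_7406cc_gt.PS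

namespace KeyX

variable {G : Type} [AddCommGroup G]

/-- The sum of two filters. -/
def sm (A B : Filter G) : Filter G := Filter.map (fun p : G × G => p.1 + p.2) (A ×ˢ B)

lemma mem_sm {A B : Filter G} {W : Set G} :
    W ∈ sm A B ↔ ∃ U ∈ A, ∃ V ∈ B, ∀ u ∈ U, ∀ v ∈ V, u + v ∈ W := by
  unfold sm
  rw [Filter.mem_map, Filter.mem_prod_iff]
  constructor
  · rintro ⟨U, hU, V, hV, h⟩
    exact ⟨U, hU, V, hV, fun u hu v hv => h (Set.mk_mem_prod hu hv)⟩
  · rintro ⟨U, hU, V, hV, h⟩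
    exact ⟨U, hU, V, hV, fun p hp => h p.1 hp.1 p.2 hp.2⟩

/-- Differences in a group filter. -/
lemma sub_small {B : Filter G} (h : Tendsto (fun p : G × G => p.1 - p.2) (B ×ˢ B) B) {V : Set G}
    (hV : V ∈ B) : ∃ V' ∈ B, ∀ x ∈ V', ∀ y ∈ V', x - y ∈ V := by
  have h1 := h hV
  rw [Filter.mem_map, Filter.mem_prod_iff] at h1
  obtain ⟨V1, h1, V2, h2, h3⟩ := h1
  exact ⟨V1 ∩ V2, Filter.inter_mem h1 h2, fun x hx y hy => h3 (Set.mk_mem_prod hx.1 hy.2)⟩

lemma sub_small_sm {A B : Filter G} (hA : Tendsto (fun p : G × G => p.1 - p.2) (A ×ˢ A) A)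
    (hB : Tendsto (fun p : G × G => p.1 - p.2) (B ×ˢ B) B) {W : Set G} (hW : W ∈ sm A B) :
    ∃ W' ∈ sm A B, ∀ x ∈ W', ∀ y ∈ W', x - y ∈ W := by
  obtain ⟨U, hU, V, hV, h⟩ := mem_sm.1 hW
  obtain ⟨U', hU', h1⟩ := sub_small hA hU
  obtain ⟨V', hV', h2⟩ := sub_small hB hV
  refine ⟨{w | ∃ u ∈ U', ∃ v ∈ V', w = u + v}, mem_sm.2 ⟨U', hU', V', hV', fun u hu v hv =>
    ⟨u, hu, v, hv, rfl⟩⟩, ?_⟩
  rintro _ ⟨u, hu, v, hv, rfl⟩ _ ⟨u', hu', v', hv', rfl⟩
  have e : u + v - (u' + v') = (u - u') + (v - v') := by abel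
  rw [e]
  exact h _ (h1 u hu u' hu') _ (h2 v hv v' hv')

/-- The basis of all elements of a group filter. -/
@[reducible]
def bas (N : Filter G) (h0 : ∀ W ∈ N, (0 : G) ∈ W)
    (hs : ∀ W ∈ N, ∃ W' ∈ N, ∀ x ∈ W', ∀ y ∈ W', x - y ∈ W) : AddGroupFilterBasis G :=
  addGroupFilterBasisOfComm N.sets ⟨Set.univ, Filter.univ_mem⟩
    (fun x y hx hy => ⟨x ∩ y, Filter.inter_mem hx hy, subset_rfl⟩) h0
    (by
      intro W hW
      obtain ⟨W1, h1, h2⟩ := hs W hW
      obtain ⟨W2, h3, h4⟩ := hs W1 h1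
      refine ⟨W1 ∩ W2, Filter.inter_mem h1 h3, ?_⟩
      rintro _ ⟨x, hx, y, hy, rfl⟩
      have h5 : -y ∈ W1 := by
        have := h4 0 (h0 W2 h3) y hy.2
        rwa [zero_sub] at this
      have h6 := h2 x hx.1 (-y) h5
      rwa [sub_neg_eq_add] at h6)
    (by
      intro W hW
      obtain ⟨W1, h1, h2⟩ := hs W hW
      refine ⟨W1, h1, fun x hx => ?_⟩
      have := h2 0 (h0 W1 h1) x hx
      rwa [zero_sub] at this)

lemma bas_filter (N : Filter G) (h0 : ∀ W ∈ N, (0 : G) ∈ W)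
    (hs : ∀ W ∈ N, ∃ W' ∈ N, ∀ x ∈ W', ∀ y ∈ W', x - y ∈ W) :
    (bas N h0 hs).toFilterBasis.filter = N := by
  ext W
  rw [FilterBasis.mem_filter_iff]
  constructor
  · rintro ⟨t, ht, h⟩
    exact Filter.mem_of_superset ht h
  · intro h
    exact ⟨W, h, subset_rfl⟩

end KeyX

open KeyX in
theorem prf_Key : S_Key := by
  intro G _ τ _ _ hmin B hp hB hsep
  have h0B : ∀ V ∈ B, (0 : G) ∈ V := fun V hV => hp hV
  have hA : Tendsto (fun p : G × G => p.1 - p.2) (𝓝 (0 : G) ×ˢ 𝓝 (0 : G)) (𝓝 (0 : G)) := by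
    have : Tendsto (fun p : G × G => p.1 - p.2) (𝓝 ((0 : G), (0 : G))) (𝓝 ((0 : G) - 0)) :=
      (continuous_fst.sub continuous_snd).tendsto _
    rwa [nhds_prod_eq, sub_zero] at this
  have h0 : ∀ W ∈ sm (𝓝 (0 : G)) B, (0 : G) ∈ W := by
    intro W hW
    obtain ⟨U, hU, V, hV, h⟩ := mem_sm.1 hW
    have := h 0 (mem_of_mem_nhds hU) 0 (h0B V hV)
    rwa [add_zero] at this
  have hs : ∀ W ∈ sm (𝓝 (0 : G)) B, ∃ W' ∈ sm (𝓝 (0 : G)) B, ∀ x ∈ W', ∀ y ∈ W', x - y ∈ W :=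
    fun W hW => sub_small_sm hA hB hW
  have hN0 : @nhds G (bas (sm (𝓝 (0 : G)) B) h0 hs).topology 0 = sm (𝓝 (0 : G)) B := by
    rw [AddGroupFilterBasis.nhds_zero_eq, bas_filter]
  have hle0 : 𝓝 (0 : G) ≤ sm (𝓝 (0 : G)) B := by
    intro W hW
    obtain ⟨U, hU, V, hV, h⟩ := mem_sm.1 hW
    refine Filter.mem_of_superset hU fun u hu => ?_
    have := h u hu 0 (h0B V hV)
    rwa [add_zero] at this
  have hle : τ ≤ (bas (sm (𝓝 (0 : G)) B) h0 hs).topology := by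
    refine le_of_nhds_le_nhds fun x => ?_
    rw [AddGroupFilterBasis.nhds_eq, AddGroupFilterBasis.N, bas_filter, ← map_add_left_nhds_zero x]
    exact Filter.map_mono hle0
  have htop : @IsTopologicalAddGroup G (bas (sm (𝓝 (0 : G)) B) h0 hs).topology _ :=
    AddGroupFilterBasis.isTopologicalAddGroup _
  have hT2 : @T2Space G (bas (sm (𝓝 (0 : G)) B) h0 hs).topology := by
    refine @IsTopologicalAddGroup.t2Space_of_zero_sep G
      (bas (sm (𝓝 (0 : G)) B) h0 hs).topology _ htop fun x hx => ?_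
    rw [hN0]
    by_contra hcon
    push Not at hcon
    refine hx (hsep x fun U hU V hV => ?_)
    obtain ⟨u, hu, v, hv, e⟩ : x ∈ {w | ∃ u ∈ U, ∃ v ∈ V, w = u + v} :=
      hcon _ (mem_sm.2 ⟨U, hU, V, hV, fun u hu v hv => ⟨u, hu, v, hv, rfl⟩⟩)
    exact ⟨v, hv, by rw [e, add_sub_cancel_right]; exact hu⟩
  have heq := hmin _ hle htop hT2
  intro W hW
  have hW' : W ∈ sm (𝓝 (0 : G)) B := by
    rw [← hN0, heq]; exact hW
  obtain ⟨U, hU, V, hV, h⟩ := mem_sm.1 hW'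
  refine Filter.mem_of_superset hV fun v hv => ?_
  have := h 0 (mem_of_mem_nhds hU) v hv
  rwa [zero_add] at this

end Pool.Agent.Work.MP_7406cc_gt.PS

end

section

/-!
# Item KeyHom
-/

open scoped Topology
open Filter Set

namespace Pool.Agent.Work.MP_7406cc_gt.PS

theorem prf_KeyHom (h : S_Key) : S_KeyHom := by
  intro G _ _ _ _ hMin A _ φ B h0 hsub hsep
  refine h G hMin (map φ B) ?_ ?_ ?_
  · have h1 : map φ (pure (0 : A)) ≤ map φ B := map_mono h0
    rwa [map_pure, map_zero] at h1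
  · rw [prod_map_map_eq, tendsto_map'_iff]
    have e : (fun p : G × G => p.1 - p.2) ∘ (fun p : A × A => (φ p.1, φ p.2)) =
        φ ∘ (fun p : A × A => p.1 - p.2) := by
      funext p; simp
    rw [e]
    exact tendsto_map.comp hsub
  · intro x hx
    have hx' : ∀ U ∈ 𝓝 (0 : G), ∀ V ∈ B, ∃ v ∈ V, x - φ v ∈ U := by
      intro U hU V hV
      obtain ⟨y, ⟨v, hv, rfl⟩, hy⟩ := hx U hU (φ '' V) (image_mem_map hV)
      exact ⟨v, hv, hy⟩
    by_contra hne
    have hW : ({x}ᶜ : Set G) ∈ 𝓝 (0 : G) := by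
      apply isOpen_compl_singleton.mem_nhds
      simpa using fun e => hne e.symm
    obtain ⟨W1, hW1, hadd⟩ := exists_nhds_zero_half hW
    obtain ⟨U, hU, V, hV, hUV⟩ := hsep W1 hW1
    obtain ⟨U1, hU1, hsub1⟩ := exists_nhds_half_neg hU
    obtain ⟨v, hv, hxv⟩ := hx' (U1 ∩ W1) (inter_mem hU1 hW1) V hV
    have hφ : φ v ∈ W1 := by
      apply hUV v hv
      intro V' hV'
      obtain ⟨v', hv', hxv'⟩ := hx' U1 hU1 V' hV'
      refine ⟨v', hv', ?_⟩
      have e : φ v - φ v' = (x - φ v') - (x - φ v) := by abel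
      rw [e]
      exact hsub1 _ hxv' _ hxv.1
    have h2 := hadd _ hxv.2 _ hφ
    rw [sub_add_cancel] at h2
    exact h2 rfl

end Pool.Agent.Work.MP_7406cc_gt.PS

end

section

/-!
# The circle has no small subgroups
-/

open scoped Topology
open Filter Set

namespace Pool.Agent.Work.MP_7406cc_gt.PS

namespace NSSX

theorem step (w : ℂ) (hw : ‖w - 1‖ ≤ 1 / 2) : 3 / 2 * ‖w - 1‖ ≤ ‖w ^ 2 - 1‖ := by
  have h1 : w ^ 2 - 1 = (w + 1) * (w - 1) := by ring
  have h2 : (3 : ℝ) / 2 ≤ ‖w + 1‖ := by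
    have h3 : (2 : ℂ) = (w + 1) - (w - 1) := by ring
    have h4 : ‖(2 : ℂ)‖ ≤ ‖w + 1‖ + ‖w - 1‖ := by
      rw [h3]; exact norm_sub_le _ _
    have h5 : ‖(2 : ℂ)‖ = 2 := by simp
    linarith
  rw [h1, norm_mul]
  exact mul_le_mul_of_nonneg_right h2 (norm_nonneg _)

theorem pow_step (z : ℂ) (h : ∀ k : ℕ, ‖z ^ (2 ^ k) - 1‖ ≤ 1 / 2) (k : ℕ) :
    (3 / 2) ^ k * ‖z - 1‖ ≤ ‖z ^ (2 ^ k) - 1‖ := by
  induction k with
  | zero => simp
  | succ k ih =>
    have h1 := step (z ^ (2 ^ k)) (h k)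
    rw [← pow_mul, ← pow_succ] at h1
    calc (3 / 2 : ℝ) ^ (k + 1) * ‖z - 1‖ = 3 / 2 * ((3 / 2) ^ k * ‖z - 1‖) := by ring
      _ ≤ 3 / 2 * ‖z ^ (2 ^ k) - 1‖ := by linarith
      _ ≤ _ := h1

end NSSX

theorem prf_NSS : S_NSS := by
  intro z hz
  have h : ∀ k : ℕ, ‖(z : ℂ) ^ (2 ^ k) - 1‖ ≤ 1 / 2 := by
    intro k
    have h1 := hz k
    rwa [Circle.coe_pow] at h1
  have hzero : ‖(z : ℂ) - 1‖ = 0 := by
    by_contra hne
    have hpos : 0 < ‖(z : ℂ) - 1‖ := lt_of_le_of_ne (norm_nonneg _) (Ne.symm hne)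
    obtain ⟨k, hk⟩ := pow_unbounded_of_one_lt (1 / ‖(z : ℂ) - 1‖) (by norm_num : (1 : ℝ) < 3 / 2)
    have h1 := NSSX.pow_step (z : ℂ) h k
    have h2 := h k
    rw [div_lt_iff₀ hpos] at hk
    linarith
  have h1 : (z : ℂ) = 1 := sub_eq_zero.1 (norm_eq_zero.1 hzero)
  exact Circle.ext (by rw [h1]; simp)

end Pool.Agent.Work.MP_7406cc_gt.PS

end

section

/-!
# Every minimal Hausdorff abelian topological group is precompact: Neumann's lemma
-/

open scoped Topology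
open Filter Set

namespace Pool.Agent.Work.MP_7406cc_gt.PS

namespace NeuX

theorem main {G : Type} [AddCommGroup G] {ι : Type} (C : ι → Set G) (s : Finset ι) :
    ∀ F : ι → Set G, (∀ i, (F i).Finite) → (∀ x : G, ∃ i ∈ s, ∃ f ∈ F i, x - f ∈ C i) →
    ∃ i ∈ s, Cov (Set.univ : Set G) {z : G | ∃ x ∈ C i, ∃ y ∈ C i, z = x - y} := by
  classical
  induction s using Finset.induction_on with
  | empty =>
    intro F _ h
    obtain ⟨i, hi, -⟩ := h 0
    exact absurd hi (Finset.notMem_empty i)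
  | insert a s ha ih =>
    intro F hF h
    by_cases hbig : Cov (Set.univ : Set G) {z : G | ∃ x ∈ C a, ∃ y ∈ C a, z = x - y}
    · exact ⟨a, Finset.mem_insert_self a s, hbig⟩
    have hg : ∃ g : G, ∀ f ∈ F a, ∀ f' ∈ F a,
        ¬ ∃ x ∈ C a, ∃ y ∈ C a, g - (f' - f) = x - y := by
      by_contra hcon
      push Not at hcon
      apply hbig
      refine ⟨Set.image2 (fun f' f => f' - f) (F a) (F a), (hF a).image2 _ (hF a), ?_⟩
      intro x _
      obtain ⟨f, hf, f', hf', y, hy, z, hz, e⟩ := hcon x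
      exact ⟨f' - f, Set.mem_image2_of_mem hf' hf, y, hy, z, hz, e⟩
    obtain ⟨g, hg⟩ := hg
    obtain ⟨i, hi, hc⟩ := ih (fun i => F i ∪ (fun f => f - g) '' F i)
      (fun i => (hF i).union ((hF i).image _)) (by
        intro x
        obtain ⟨i, hi, f, hf, hx⟩ := h x
        rcases Finset.mem_insert.1 hi with rfl | hi
        · obtain ⟨i', hi', f', hf', hx'⟩ := h (x + g)
          rcases Finset.mem_insert.1 hi' with rfl | hi'
          · exfalso
            exact hg f hf f' hf' ⟨x + g - f', hx', x - f, hx, by abel⟩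
          · refine ⟨i', hi', f' - g, Or.inr ⟨f', hf', rfl⟩, ?_⟩
            have e : x - (f' - g) = x + g - f' := by abel
            rw [e]
            exact hx'
        · exact ⟨i, hi, f, Or.inl hf, hx⟩)
    exact ⟨i, Finset.mem_insert_of_mem hi, hc⟩

end NeuX

theorem prf_Neu : S_Neu := by
  intro G _ ι s C h
  refine NeuX.main C s (fun _ => {0}) (fun _ => Set.finite_singleton 0) ?_
  intro x
  obtain ⟨i, hi, hx⟩ := h x
  exact ⟨i, hi, 0, rfl, by rwa [sub_zero]⟩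

end Pool.Agent.Work.MP_7406cc_gt.PS

end

section

/-!
# The theorem of Prodanov and Stoyanov: assembly
-/

open scoped Topology
open Filter Set

namespace Pool.Agent.Work.MP_7406cc_gt.PS

namespace PSX

theorem nhds_sub {K : Type} [AddCommGroup K] [TopologicalSpace K] [IsTopologicalAddGroup K]
    {W : Set K} (hW : W ∈ 𝓝 (0 : K)) (x : K) : {y : K | y - x ∈ W} ∈ 𝓝 x := by
  have h : Tendsto (fun y : K => y - x) (𝓝 x) (𝓝 0) := by
    have h1 : Continuous (fun y : K => y - x) := continuous_id.sub continuous_const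
    have h2 := h1.tendsto x
    simpa using h2
  exact h hW

/-- A compact set is covered by finitely many translates. -/
theorem cov_compact {K : Type} [AddCommGroup K] [TopologicalSpace K] [IsTopologicalAddGroup K]
    {S W : Set K} (hS : IsCompact S) (hW : W ∈ 𝓝 (0 : K)) : Cov S W := by
  obtain ⟨t, _, ht⟩ := hS.elim_nhds_subcover (fun x => {y : K | y - x ∈ W})
    (fun x _ => nhds_sub hW x)
  refine ⟨t, t.finite_toSet, fun x hx => ?_⟩
  have h := ht hx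
  simp only [mem_iUnion] at h
  obtain ⟨f, hf, hx'⟩ := h
  exact ⟨f, hf, hx'⟩

/-- The sum of a closed totally bounded subgroup and a compact subgroup. -/
theorem tb_sum {K : Type} [AddCommGroup K] [TopologicalSpace K] [IsTopologicalAddGroup K]
    (Δ : AddSubgroup K) (D : Set K) (hD : IsCompact D) (hΔ : TB (Set.univ : Set Δ))
    (hs : ∀ x : K, ∃ δ ∈ Δ, x - δ ∈ D) : TB (Set.univ : Set K) := by
  intro U hU
  obtain ⟨W, hW, hWU⟩ := exists_nhds_zero_half hU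
  have hW' : (Subtype.val ⁻¹' W : Set Δ) ∈ 𝓝 (0 : Δ) := by
    have h1 : Tendsto (Subtype.val : Δ → K) (𝓝 0) (𝓝 ((0 : Δ) : K)) :=
      continuous_subtype_val.tendsto _
    exact h1 hW
  obtain ⟨F1, hF1, h1⟩ := hΔ _ hW'
  obtain ⟨F2, hF2, h2⟩ := cov_compact hD hW
  refine ⟨Set.image2 (fun a b => a + b) (Subtype.val '' F1) F2,
    (hF1.image _).image2 _ hF2, fun x _ => ?_⟩
  obtain ⟨δ, hδ, hx⟩ := hs x
  obtain ⟨f1, hf1, h3⟩ := h1 ⟨δ, hδ⟩ (mem_univ _)
  obtain ⟨f2, hf2, h4⟩ := h2 _ hx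
  refine ⟨(f1 : K) + f2, ⟨(f1 : K), ⟨f1, hf1, rfl⟩, f2, hf2, rfl⟩, ?_⟩
  have h5 : δ - (f1 : K) ∈ W := h3
  have h6 := hWU _ h5 _ h4
  have h7 : x - ((f1 : K) + f2) = δ - (f1 : K) + (x - δ - f2) := by abel
  rw [h7]
  exact h6

/-- A group embedded in a totally bounded group with dense range. -/
theorem tb_dense {G K : Type} [AddCommGroup G] [TopologicalSpace G] [AddCommGroup K]
    [TopologicalSpace K] [IsTopologicalAddGroup K] (ι : G →+ K) (hι : Topology.IsEmbedding ι)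
    (hd : DenseRange ι) (hK : TB (Set.univ : Set K)) : TB (Set.univ : Set G) := by
  intro U hU
  have h0 : U ∈ Filter.comap ι (𝓝 (ι 0)) := by
    rw [← hι.isInducing.nhds_eq_comap]
    exact hU
  rw [map_zero] at h0
  obtain ⟨V, hV, hVU⟩ := mem_comap.1 h0
  obtain ⟨V1, hV1, hV1V⟩ := exists_nhds_half_neg hV
  obtain ⟨F, hF, h1⟩ := hK V1 hV1
  have h2 : ∀ f : K, ∃ g : G, ι g - f ∈ V1 := by
    intro f
    obtain ⟨y, hy, g, rfl⟩ := mem_closure_iff_nhds.1 (hd f) _ (nhds_sub hV1 f)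
    exact ⟨g, hy⟩
  choose g hg using h2
  refine ⟨g '' F, hF.image g, fun x _ => ?_⟩
  obtain ⟨f, hf, hx⟩ := h1 (ι x) (mem_univ _)
  refine ⟨g f, ⟨f, hf, rfl⟩, hVU ?_⟩
  have h3 := hV1V _ hx _ (hg f)
  rw [mem_preimage, map_sub]
  have h4 : ι x - ι (g f) = ι x - f - (ι (g f) - f) := by abel
  rw [h4]
  exact h3

theorem main_complete (h2 : S_RedStar) (h3 : S_Bdd) (h4 : S_Dcomp)
    (h5 : S_ClosedSub) (h6 : S_StarTB) (K : Type) [AddCommGroup K] [UniformSpace K]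
    [IsUniformAddGroup K] [CompleteSpace K] [T2Space K] (hK : MinG K) :
    TB (Set.univ : Set K) := by
  obtain ⟨Δ, hcl, hst, hs⟩ := h2 K hK
  have hcomp : IsCompact (DD K : Set K) := h4 K (h3 K hK)
  have hΔm : MinG Δ := h5 K hK Δ hcl
  haveI : CompleteSpace Δ := hcl.completeSpace_coe
  have hΔ : TB (Set.univ : Set Δ) := h6 Δ hΔm hst
  exact tb_sum Δ (DD K : Set K) hcomp hΔ hs

theorem main_unif (h1 : S_DenseMin) (h2 : S_RedStar) (h3 : S_Bdd) (h4 : S_Dcomp)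
    (h5 : S_ClosedSub) (h6 : S_StarTB) (G : Type) [AddCommGroup G] [UniformSpace G]
    [IsUniformAddGroup G] [T2Space G] (hG : MinG G) : TB (Set.univ : Set G) := by
  have hemb : Topology.IsEmbedding
      (UniformSpace.Completion.toCompl : G →+ UniformSpace.Completion G) :=
    (UniformSpace.Completion.isUniformEmbedding_coe G).isEmbedding
  have hden : DenseRange
      (UniformSpace.Completion.toCompl : G →+ UniformSpace.Completion G) :=
    UniformSpace.Completion.denseRange_coe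
  have hK : MinG (UniformSpace.Completion G) :=
    h1 G (UniformSpace.Completion G) UniformSpace.Completion.toCompl hemb hden hG
  exact tb_dense _ hemb hden (main_complete h2 h3 h4 h5 h6 _ hK)

end PSX

theorem prf_PS (h1 : S_DenseMin) (h2 : S_RedStar) (h3 : S_Bdd) (h4 : S_Dcomp)
    (h5 : S_ClosedSub) (h6 : S_StarTB) : S_PS := by
  intro G _ _ _ _ hG
  letI : UniformSpace G := IsTopologicalAddGroup.rightUniformSpace G
  haveI : IsUniformAddGroup G := isUniformAddGroup_of_addCommGroup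
  exact PSX.main_unif h1 h2 h3 h4 h5 h6 G hG

end Pool.Agent.Work.MP_7406cc_gt.PS

end

section

open scoped Topology
open Filter Set

namespace Pool.Agent.Work.MP_7406cc_gt.PS

theorem prf_PairComp : S_PairComp := by
  intro X x O hO n
  obtain ⟨V, hV, hVO⟩ := exists_nhds_split_inv hO
  obtain ⟨y, hy⟩ := exists_clusterPt_of_compactSpace
    (Filter.map (fun k : ℕ => x (n + k)) atTop)
  have hs : {z : X → Circle | z * y⁻¹ ∈ V} ∈ 𝓝 y := by
    have hc : Continuous (fun z : X → Circle => z * y⁻¹) := continuous_mul_const _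
    have := hc.tendsto y
    rw [mul_inv_cancel] at this
    exact this hV
  have hf : ∃ᶠ k : ℕ in atTop, x (n + k) * y⁻¹ ∈ V := by
    have h1 : MapClusterPt y atTop (fun k : ℕ => x (n + k)) := hy
    rw [mapClusterPt_iff_frequently] at h1
    exact h1 _ hs
  rw [frequently_atTop] at hf
  obtain ⟨k, _, hk⟩ := hf 0
  obtain ⟨l, hl, hl'⟩ := hf (k + 1)
  refine ⟨n + k, n + l, by omega, by omega, by omega, ?_⟩
  have := hVO _ hk _ hl'
  rw [div_eq_mul_inv, mul_inv_rev, inv_inv] at this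
  simpa [mul_assoc] using this

end Pool.Agent.Work.MP_7406cc_gt.PS

end

section

open scoped Topology
open Filter Set

namespace Pool.Agent.Work.MP_7406cc_gt.PS

namespace PickPX

theorem smul_pre {G : Type} [AddCommGroup G] [TopologicalSpace G] [IsTopologicalAddGroup G]
    (k : ℕ) {W : Set G} (hW : W ∈ 𝓝 (0 : G)) : {x : G | k • x ∈ W} ∈ 𝓝 (0 : G) := by
  have h : Tendsto (fun x : G => k • x) (𝓝 0) (𝓝 (k • (0 : G))) :=
    (continuous_const_smul k).tendsto 0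
  rw [smul_zero] at h
  exact h hW

theorem claim {G : Type} [AddCommGroup G] [TopologicalSpace G] [IsTopologicalAddGroup G]
    (hthin : ∀ p : ℕ, p.Prime → Thin G p 0) : ∀ d : ℕ, 0 < d → ∀ W ∈ 𝓝 (0 : G),
    ∃ F : Set G, F.Finite ∧ ∀ x : G, ∃ f ∈ F, ∃ y : G, x - f - d • y ∈ W := by
  intro d
  induction d using induction_on_primes with
  | zero => intro h; exact absurd h (lt_irrefl 0)
  | one =>
    intro _ W hW
    refine ⟨{0}, Set.finite_singleton 0, fun x => ⟨0, rfl, x, ?_⟩⟩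
    have : x - 0 - 1 • x = 0 := by simp
    rw [this]
    exact mem_of_mem_nhds hW
  | prime_mul p d' hp ih =>
    intro hd W hW
    have hd' : 0 < d' := Nat.pos_of_mul_pos_left hd
    obtain ⟨W1, hW1, hW1W⟩ : ∃ V ∈ 𝓝 (0 : G), ∀ v ∈ V, ∀ w ∈ V, v + w ∈ W :=
      exists_nhds_zero_half hW
    have hp1 := hthin p hp W1 hW1
    unfold Thick at hp1
    rw [not_not] at hp1
    obtain ⟨F1, hF1, h1⟩ := hp1
    obtain ⟨F2, hF2, h2⟩ := ih hd' _ (smul_pre p hW1)
    refine ⟨Set.image2 (fun f g => f + p • g) F1 F2, hF1.image2 _ hF2, fun x => ?_⟩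
    obtain ⟨f, hf, y, hy⟩ := h1 x
    obtain ⟨g, hg, z, hz⟩ := h2 y
    refine ⟨f + p • g, ⟨f, hf, g, hg, rfl⟩, z, ?_⟩
    have key : x - (f + p • g) - (p * d') • z =
        (p ^ 0 • x - f - p ^ (0 + 1) • y) + p • (y - g - d' • z) := by
      rw [pow_zero, one_smul, zero_add, pow_one, smul_sub, smul_sub, smul_smul]
      abel
    rw [key]
    exact hW1W _ hy _ hz

end PickPX

theorem prf_PickP : S_PickP := by
  intro G _ _ _ hstar hthin U hU
  obtain ⟨W, hW, hWU⟩ : ∃ V ∈ 𝓝 (0 : G), ∀ v ∈ V, ∀ w ∈ V, v + w ∈ U :=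
    exists_nhds_zero_half hU
  obtain ⟨N, hN, hNW⟩ := hstar W hW
  obtain ⟨F, hF, h⟩ := PickPX.claim hthin N hN W hW
  refine ⟨F, hF, fun x _ => ?_⟩
  obtain ⟨f, hf, y, hy⟩ := h x
  refine ⟨f, hf, ?_⟩
  have key : x - f = (x - f - N • y) + N • y := by abel
  rw [key]
  exact hWU _ hy _ (hNW y)

end Pool.Agent.Work.MP_7406cc_gt.PS

end

section

open scoped Topology
open Filter Set

namespace Pool.Agent.Work.MP_7406cc_gt.PS

namespace RedStarX

/-- Kernel of an additive character. -/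
def ker {G : Type} [AddCommGroup G] (φ : AddChar G Circle) : AddSubgroup G where
  carrier := {x | φ x = 1}
  zero_mem' := φ.map_zero_eq_one
  add_mem' := by
    intro a b ha hb
    simp only [mem_ofPred_eq] at ha hb ⊢
    rw [AddChar.map_add_eq_mul, ha, hb, one_mul]
  neg_mem' := by
    intro a ha
    simp only [mem_ofPred_eq] at ha ⊢
    rw [AddChar.map_neg_eq_inv, ha, inv_one]

lemma mem_ker {G : Type} [AddCommGroup G] (φ : AddChar G Circle) (x : G) :
    x ∈ ker φ ↔ φ x = 1 := Iff.rfl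

end RedStarX

theorem prf_RedStar (h1 : S_ClosedSub) (h2 : S_Bdd) (h3 : S_Dcomp) (h4 : S_Dnear) (h5 : S_Ddiv)
    (h6 : S_DDmono) (h7 : S_Ext) (h8 : S_CharD) (h9 : S_SurjT) (h10 : S_Zorn) : S_RedStar := by
  intro G _ _ _ _ _ hmin
  have hbd : Bd G := h2 G hmin
  have hD : IsCompact (DD G : Set G) := h3 G hbd
  obtain ⟨Δ, hΔc, hΔ, hmn⟩ := h10 G (DD G) hD
  refine ⟨Δ, hΔc, ?_, hΔ⟩
  have : CompleteSpace Δ := hΔc.completeSpace_coe
  have hminΔ : MinG Δ := h1 G hmin Δ hΔc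
  have hbdΔ : Bd Δ := h2 Δ hminΔ
  have hD' : IsCompact (DD Δ : Set Δ) := h3 Δ hbdΔ
  by_cases hbot : DD Δ = ⊥
  · intro U hU
    obtain ⟨n, hn, hx⟩ := h4 Δ hbdΔ U hU
    refine ⟨n, hn, fun x => ?_⟩
    obtain ⟨d, hd, hxd⟩ := hx x
    rw [hbot, AddSubgroup.mem_bot] at hd
    simpa [hd] using hxd
  · exfalso
    obtain ⟨⟨x, hx⟩, hx0⟩ := AddSubgroup.ne_bot_iff_exists_ne_zero.1 hbot
    have : CompactSpace (DD Δ) := isCompact_iff_compactSpace.1 hD'
    obtain ⟨χ, hχc, hχ⟩ := h8 (DD Δ) ⟨x, hx⟩ hx0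
    obtain ⟨m, hm, φ, hφc, hφ⟩ := h7 Δ (DD Δ) (h4 Δ hbdΔ) χ hχc
    obtain ⟨e, he, hme⟩ := h5 Δ hbdΔ m hm x hx
    have hφe : φ e ≠ 1 := by
      have h : φ e = (χ ⟨e, he⟩) ^ m := hφ ⟨e, he⟩
      rw [h, ← AddChar.map_nsmul_eq_pow]
      have h' : m • (⟨e, he⟩ : DD Δ) = ⟨x, hx⟩ := Subtype.ext hme
      rw [h']
      exact hχ
    have hsur := h9 Δ (DD Δ) hD' (h5 Δ hbdΔ) φ hφc ⟨e, he, hφe⟩
    have hcl : IsClosed ((AddSubgroup.map Δ.subtype (RedStarX.ker φ) : AddSubgroup G) : Set G) := by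
      rw [AddSubgroup.coe_map]
      have hk : IsClosed (RedStarX.ker φ : Set Δ) := isClosed_eq hφc continuous_const
      exact hΔc.isClosedEmbedding_subtypeVal.isClosedMap _ hk
    have hle : AddSubgroup.map Δ.subtype (RedStarX.ker φ) ≤ Δ := by
      rintro _ ⟨y, _, rfl⟩
      exact y.2
    have heq := hmn _ hcl hle (by
      intro y
      obtain ⟨δ, hδ, hyδ⟩ := hΔ y
      obtain ⟨d, hd, hdφ⟩ := hsur (φ ⟨δ, hδ⟩)
      refine ⟨δ - (d : G), ⟨⟨δ, hδ⟩ - d, ?_, rfl⟩, ?_⟩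
      · show φ (⟨δ, hδ⟩ - d) = 1
        rw [AddChar.map_sub_eq_div, hdφ, div_self']
      · have h : y - (δ - (d : G)) = (y - δ) + (d : G) := by abel
        rw [h]
        exact (DD G).add_mem hyδ (h6 G Δ d hd))
    have h' : (e : G) ∈ AddSubgroup.map Δ.subtype (RedStarX.ker φ) := by
      rw [heq]
      exact e.2
    obtain ⟨y, hy, hye⟩ := h'
    have : y = e := Subtype.ext hye
    rw [this] at hy
    exact hφe hy

end Pool.Agent.Work.MP_7406cc_gt.PS

end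

section

/-!
# The sequence for the proof of `Bd`
-/

set_option autoImplicit false

open scoped Topology
open Filter Set

namespace Pool.Agent.Work.MP_7406cc_gt.PS

namespace SelF2X

/-- The sums of the integer multiples with bounded coefficients. -/
def SS {G : Type} [AddCommGroup G] (n : ℕ) (f : ℕ → G) : Set G :=
  {s | ∃ c : ℕ → ℤ, (∀ j, |c j| ≤ 2 ^ j) ∧ s = ∑ j ∈ Finset.range n, c j • f j}

theorem SS_finite {G : Type} [AddCommGroup G] (n : ℕ) (f : ℕ → G) : (SS n f).Finite := by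
  induction n with
  | zero =>
    refine (Set.finite_singleton (0 : G)).subset ?_
    rintro s ⟨c, -, rfl⟩
    rw [Finset.sum_range_zero]
    exact Set.mem_singleton 0
  | succ n ih =>
    have h2 : ((fun m : ℤ => m • f n) '' (Set.Icc (-(2 ^ n : ℤ)) (2 ^ n : ℤ))).Finite :=
      (Set.finite_Icc _ _).image _
    refine (Set.Finite.image2 (fun a b => a + b) ih h2).subset ?_
    rintro s ⟨c, hc, rfl⟩
    rw [Finset.sum_range_succ]
    exact ⟨_, ⟨c, hc, rfl⟩, _, ⟨c n, abs_le.1 (hc n), rfl⟩, rfl⟩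

/-- The condition on the next member of the sequence. -/
def PP {G : Type} [AddCommGroup G] (U₀ : Set G) (n : ℕ) (f : ℕ → G) (y : G) : Prop :=
  ∀ k : ℕ, 1 ≤ k → k ≤ 2 ^ n → ∀ c : ℕ → ℤ, (∀ j, |c j| ≤ 2 ^ j) →
    k • y - ∑ j ∈ Finset.range n, c j • f j ∉ U₀

theorem PP_ex {G : Type} [AddCommGroup G] (h1 : S_Neu) {U U₀ : Set G}
    (hU : ∀ k : ℕ, 0 < k → ¬ Cov {y : G | ∃ x : G, y = k • x} U)
    (h0 : ∀ v ∈ U₀, ∀ w ∈ U₀, v - w ∈ U) (n : ℕ) (f : ℕ → G) : ∃ y, PP U₀ n f y := by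
  by_contra hcon
  have hcon' : ∀ y : G, ∃ k : ℕ, 1 ≤ k ∧ k ≤ 2 ^ n ∧ ∃ s ∈ SS n f, k • y - s ∈ U₀ := by
    intro y
    by_contra h
    refine hcon ⟨y, fun k hk1 hk2 c hc hmem => h ⟨k, hk1, hk2, _, ⟨c, hc, rfl⟩, hmem⟩⟩
  classical
  obtain ⟨⟨k, s⟩, hi, F, hF, hcov⟩ := h1 G (ℕ × G)
    ((Finset.Icc 1 (2 ^ n)) ×ˢ (SS_finite n f).toFinset) (fun i => {y | i.1 • y - i.2 ∈ U₀}) (by
      intro y
      obtain ⟨k, hk1, hk2, s, hs, hmem⟩ := hcon' y
      exact ⟨(k, s), Finset.mem_product.2 ⟨Finset.mem_Icc.2 ⟨hk1, hk2⟩,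
        (Set.Finite.mem_toFinset _).2 hs⟩, hmem⟩)
  have hk : 0 < k := (Finset.mem_Icc.1 (Finset.mem_product.1 hi).1).1
  refine hU k hk ⟨(fun g => k • g) '' F, hF.image _, ?_⟩
  rintro _ ⟨x, rfl⟩
  obtain ⟨g, hg, x', hx', y', hy', hxy⟩ := hcov x (Set.mem_univ x)
  refine ⟨k • g, ⟨g, hg, rfl⟩, ?_⟩
  have e : k • x - k • g = (k • x' - s) - (k • y' - s) := by
    rw [← nsmul_sub, hxy, nsmul_sub]
    abel
  rw [e]
  exact h0 _ hx' _ hy'

end SelF2X

theorem prf_SelF2 (h1 : S_Neu) (h2 : S_SeqSel) : S_SelF2 := by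
  intro G _ _ _ hBd
  have hBd' : ∃ U ∈ 𝓝 (0 : G), ∀ k : ℕ, 0 < k → ¬ Cov {y : G | ∃ x : G, y = k • x} U := by
    by_contra h
    refine hBd fun U hU => ?_
    by_contra h'
    exact h ⟨U, hU, fun k hk hc => h' ⟨k, hk, hc⟩⟩
  obtain ⟨U, hU, hUk⟩ := hBd'
  obtain ⟨V, hV, hVU⟩ := exists_nhds_half_neg hU
  have hV' : -V ∈ 𝓝 (0 : G) := by
    have h := neg_mem_nhds_zero G hV
    exact h
  obtain ⟨f, hf⟩ := h2 G (SelF2X.PP (V ∩ -V)) (by
    intro n f g y hfg hP k hk1 hk2 c hc hmem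
    refine hP k hk1 hk2 c hc ?_
    have e : ∑ j ∈ Finset.range n, c j • f j = ∑ j ∈ Finset.range n, c j • g j :=
      Finset.sum_congr rfl fun j hj => by rw [hfg j (Finset.mem_range.1 hj)]
    rw [e]
    exact hmem) (fun n f => SelF2X.PP_ex h1 hUk
      (fun v hv w hw => hVU v hv.1 w hw.1) n f)
  refine ⟨V ∩ -V, inter_mem hV hV', f, fun c hc hmem => ?_⟩
  by_contra hne
  have hsupp : c.support.Nonempty := Finsupp.support_nonempty_iff.2 hne
  set i := c.support.max' hsupp with hi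
  have hci : c i ≠ 0 := Finsupp.mem_support_iff.1 (c.support.max'_mem hsupp)
  have hlc : lc f c = ∑ j ∈ Finset.range (i + 1), c j • f j := by
    show (Finsupp.linearCombination ℤ f) c = _
    rw [Finsupp.linearCombination_apply]
    refine Finsupp.sum_of_support_subset c ?_ _ (fun j _ => zero_smul ℤ _)
    intro j hj
    exact Finset.mem_range.2 (Nat.lt_succ_of_le (c.support.le_max' j hj))
  rw [hlc, Finset.sum_range_succ] at hmem
  rcases lt_or_gt_of_ne hci with hneg | hpos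
  · obtain ⟨k, hk⟩ := Int.eq_ofNat_of_zero_le (show 0 ≤ -c i by omega)
    have hb := hc i
    rw [abs_of_neg hneg, hk] at hb
    have hk2 : k ≤ 2 ^ i := by exact_mod_cast hb
    refine hf i k (by omega) hk2 c hc ?_
    have e : k • f i - ∑ j ∈ Finset.range i, c j • f j =
        -(∑ j ∈ Finset.range i, c j • f j + c i • f i) := by
      rw [show c i = -(k : ℤ) by omega, neg_smul, natCast_zsmul]
      abel
    rw [e]
    exact ⟨hmem.2, by rw [Set.mem_neg, neg_neg]; exact hmem.1⟩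
  · obtain ⟨k, hk⟩ := Int.eq_ofNat_of_zero_le (show 0 ≤ c i by omega)
    have hb := hc i
    rw [abs_of_pos hpos, hk] at hb
    have hk2 : k ≤ 2 ^ i := by exact_mod_cast hb
    refine hf i k (by omega) hk2 (fun j => -c j) (fun j => by rw [abs_neg]; exact hc j) ?_
    have e : k • f i - ∑ j ∈ Finset.range i, (-c j) • f j =
        ∑ j ∈ Finset.range i, c j • f j + c i • f i := by
      rw [hk, natCast_zsmul]
      simp only [neg_smul, Finset.sum_neg_distrib]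
      abel
    rw [e]
    exact hmem

end Pool.Agent.Work.MP_7406cc_gt.PS

end

section

/-!
# Item SelStar: the selection of the sequence
-/

set_option autoImplicit false

open scoped Topology
open Filter Set

namespace Pool.Agent.Work.MP_7406cc_gt.PS

namespace SelStarX

variable {G : Type} [AddCommGroup G]

/-- the property of the next member of the sequence. -/
def Pr (p : ℕ) (R : ℕ → Prop) (W' : ℕ → Set G) (n : ℕ) (f : ℕ → G) (y : G) : Prop :=
  ∀ s ≤ n, R s → ∀ c : ℕ → ℤ, (∀ j, 0 ≤ c j ∧ c j < (p : ℤ) ^ (n + 1)) → ∀ z : G,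
    p ^ s • y - ∑ j ∈ Finset.range n, c j • (cp p j • f j) - p ^ (s + 1) • z ∉ W' s

theorem ex (h1 : S_Neu) (p : ℕ) (R : ℕ → Prop) (W W' : ℕ → Set G)
    (hW : ∀ s, R s → Thick G p s (W s))
    (hW' : ∀ s, R s → ∀ u ∈ W' s, ∀ v ∈ W' s, u - v ∈ W s) (n : ℕ) (f : ℕ → G) :
    ∃ y, Pr p R W' n f y := by
  classical
  by_contra hcon
  push Not at hcon
  let C : ℕ × (Fin n → ℤ) → Set G := fun i => {y | R i.1 ∧ ∃ z : G,
    p ^ i.1 • y - ∑ j : Fin n, i.2 j • (cp p j • f j) - p ^ (i.1 + 1) • z ∈ W' i.1}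
  let S : Finset (ℕ × (Fin n → ℤ)) := (Finset.range (n + 1)) ×ˢ
    (Fintype.piFinset fun _ : Fin n => Finset.Ico (0 : ℤ) ((p : ℤ) ^ (n + 1)))
  have hcov : ∀ x : G, ∃ i ∈ S, x ∈ C i := by
    intro x
    have hx := hcon x
    unfold Pr at hx
    push Not at hx
    obtain ⟨s, hs, hR, c, hc, z, hz⟩ := hx
    refine ⟨(s, fun j => c j), ?_, hR, z, ?_⟩
    · rw [Finset.mem_product]
      refine ⟨Finset.mem_range.2 (by omega), ?_⟩
      rw [Fintype.mem_piFinset]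
      intro j
      rw [Finset.mem_Ico]
      exact hc j
    · rw [Finset.sum_range] at hz
      exact hz
  obtain ⟨⟨s, c⟩, -, F, hF, hF'⟩ := h1 G (ℕ × (Fin n → ℤ)) S C hcov
  have hR : R s := by
    obtain ⟨g, -, x, hx, -⟩ := hF' 0 (mem_univ _)
    exact hx.1
  refine hW s hR ⟨(fun g => p ^ s • g) '' F, hF.image _, fun x => ?_⟩
  obtain ⟨g, hg, u, ⟨-, z, hz⟩, v, ⟨-, z', hz'⟩, huv⟩ := hF' x (mem_univ _)
  refine ⟨p ^ s • g, ⟨g, hg, rfl⟩, z - z', ?_⟩
  have h2 := hW' s hR _ hz _ hz'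
  have h3 : p ^ s • x - p ^ s • g - p ^ (s + 1) • (z - z') =
      (p ^ s • u - ∑ j : Fin n, c j • (cp p j • f j) - p ^ (s + 1) • z) -
      (p ^ s • v - ∑ j : Fin n, c j • (cp p j • f j) - p ^ (s + 1) • z') := by
    rw [← smul_sub, huv, smul_sub, smul_sub]
    abel
  rw [h3]
  exact h2

end SelStarX

open SelStarX in
theorem prf_SelStar (h1 : S_Neu) (h2 : S_SeqSel) : S_SelStar := by
  intro G _ _ _ p hp R hR
  classical
  have hex : ∀ s, ∃ W W' : Set G, R s → (Thick G p s W ∧ W' ∈ 𝓝 (0 : G) ∧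
      ∀ u ∈ W', ∀ v ∈ W', u - v ∈ W) := by
    intro s
    by_cases hs : R s
    · obtain ⟨W, hW, hT⟩ := hR s hs
      obtain ⟨V, hV, hV'⟩ := exists_nhds_half_neg hW
      exact ⟨W, V, fun _ => ⟨hT, hV, hV'⟩⟩
    · exact ⟨univ, univ, fun h => absurd h hs⟩
  choose W W' hW using hex
  refine ⟨W', fun s hs => (hW s hs).2.1, ?_⟩
  obtain ⟨g, hg⟩ := h2 G (Pr p R W') (by
    intro n f g y hfg h s hs hRs c hc z
    have := h s hs hRs c hc z
    rw [Finset.sum_congr rfl (fun j hj => by rw [hfg j (Finset.mem_range.1 hj)])] at this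
    exact this)
    (fun n f => ex h1 p R W W' (fun s hs => (hW s hs).1) (fun s hs => (hW s hs).2.2) n f)
  refine ⟨g, fun i => cp p i • g i, fun i => rfl, fun i s hs hRs c hc y => ?_⟩
  exact hg i s hs hRs c hc y

end Pool.Agent.Work.MP_7406cc_gt.PS

end

section

/-!
# Recursive choice of a sequence
-/

open scoped Topology
open Filter Set

namespace Pool.Agent.Work.MP_7406cc_gt.PS

namespace SeqSelX

/-- the sequence defined by the choice function `c` -/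
noncomputable def sel {α : Type} (c : ℕ → (ℕ → α) → α) (d : α) (n : ℕ) : α :=
  c n (fun i => if _h : i < n then sel c d i else d)
termination_by n

end SeqSelX

open SeqSelX in
theorem prf_SeqSel : S_SeqSel := by
  intro α _ P hP hex
  choose c hc using hex
  obtain ⟨d⟩ := (inferInstance : Nonempty α)
  refine ⟨sel c d, fun n => ?_⟩
  have h1 := hc n (fun i => if h : i < n then sel c d i else d)
  have h2 : sel c d n = c n (fun i => if h : i < n then sel c d i else d) := by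
    rw [sel]
  rw [h2]
  refine hP n _ _ _ (fun i hi => ?_) h1
  rw [dif_pos hi]

end Pool.Agent.Work.MP_7406cc_gt.PS

end

section

open scoped Topology
open Filter Set

namespace Pool.Agent.Work.MP_7406cc_gt.PS

/-- Groups with property `StarG` which are complete and minimal are totally bounded. -/
theorem prf_StarTB (h1 : S_PickP) (h2 : S_CaseInf) (h3 : S_CaseFin) : S_StarTB := by
  classical
  intro G _ _ _ _ _ hmin hstar
  refine h1 G hstar fun p hp => ?_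
  by_contra hthin
  have hthick : ∀ r, ¬ Thin G p r → ∃ W ∈ 𝓝 (0 : G), Thick G p r W := by
    intro r hr
    unfold Thin at hr
    push Not at hr
    exact hr
  by_cases hall : ∀ r, ∃ W ∈ 𝓝 (0 : G), Thick G p r W
  · exact h2 G hmin hstar p hp hall
  · have hex : ∃ r, Thin G p r := by
      by_contra hno
      push Not at hno
      exact hall fun r => hthick r (hno r)
    have hρ : Thin G p (Nat.find hex) := Nat.find_spec hex
    have hpos : 0 < Nat.find hex := by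
      rcases Nat.eq_zero_or_pos (Nat.find hex) with h | h
      · rw [h] at hρ
        exact absurd hρ hthin
      · exact h
    exact h3 G hmin hstar p hp (Nat.find hex) hpos
      (fun r hr => hthick r (Nat.find_min hex hr)) hρ

end Pool.Agent.Work.MP_7406cc_gt.PS

end

section

/-!
# Item SurjT: a nontrivial character is onto on a compact divisible subgroup
-/

set_option autoImplicit false

open scoped Topology
open Filter Set

namespace Pool.Agent.Work.MP_7406cc_gt.PS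

namespace SurjTX

theorem exp_pow (r : ℝ) (m : ℕ) : Circle.exp r ^ m = Circle.exp (m * r) := by
  induction m with
  | zero => simp
  | succ m ih =>
    rw [pow_succ, ih, ← Circle.exp_add]
    congr 1
    push_cast
    ring

end SurjTX

theorem prf_SurjT : S_SurjT := by
  intro G _ _ _ D hD hdiv φ hφ hex z
  let S : AddSubgroup ℝ :=
    { carrier := {r : ℝ | ∃ d ∈ D, φ d = Circle.exp r}
      zero_mem' := ⟨0, D.zero_mem, by rw [AddChar.map_zero_eq_one, Circle.exp_zero]⟩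
      add_mem' := by
        rintro a b ⟨d, hd, h1⟩ ⟨e, he, h2⟩
        exact ⟨d + e, D.add_mem hd he, by rw [AddChar.map_add_eq_mul, h1, h2, Circle.exp_add]⟩
      neg_mem' := by
        rintro a ⟨d, hd, h1⟩
        exact ⟨-d, D.neg_mem hd, by rw [AddChar.map_neg_eq_inv, h1, Circle.exp_neg]⟩ }
  have hmem : ∀ r : ℝ, r ∈ S ↔ ∃ d ∈ D, φ d = Circle.exp r := fun r => Iff.rfl
  have hclosed : IsClosed (S : Set ℝ) := by
    have h1 : IsClosed (φ '' (D : Set G)) := (hD.image hφ).isClosed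
    have h2 : (S : Set ℝ) = Circle.exp ⁻¹' (φ '' (D : Set G)) := by
      ext r
      rw [SetLike.mem_coe, hmem]
      simp only [Set.mem_preimage, Set.mem_image, SetLike.mem_coe]
    rw [h2]
    exact h1.preimage Circle.exp.continuous
  rcases AddSubgroup.dense_or_cyclic S with hdense | ⟨a, ha⟩
  · have h1 : (S : Set ℝ) = Set.univ := by
      rw [← hclosed.closure_eq]
      exact hdense.closure_eq
    have h2 : Complex.arg z ∈ S := by
      rw [← SetLike.mem_coe, h1]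
      exact Set.mem_univ _
    obtain ⟨d, hd, h3⟩ := (hmem _).1 h2
    exact ⟨d, hd, by rw [h3, Circle.exp_arg]⟩
  · exfalso
    have h1 : 2 * Real.pi ∈ S := (hmem _).2
      ⟨0, D.zero_mem, by rw [AddChar.map_zero_eq_one, Circle.exp_two_pi]⟩
    rw [ha, AddSubgroup.mem_closure_singleton] at h1
    obtain ⟨N, hN⟩ := h1
    rw [zsmul_eq_mul] at hN
    have hN0 : N ≠ 0 := by
      rintro rfl
      rw [Int.cast_zero, zero_mul] at hN
      exact absurd hN.symm (by positivity)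
    obtain ⟨d, hd, hne⟩ := hex
    obtain ⟨e, he, hed⟩ := hdiv N.natAbs (Int.natAbs_pos.2 hN0) d hd
    apply hne
    rw [← hed, AddChar.map_nsmul_eq_pow]
    have h2 : Complex.arg (φ e) ∈ S := (hmem _).2 ⟨e, he, by rw [Circle.exp_arg]⟩
    rw [ha, AddSubgroup.mem_closure_singleton] at h2
    obtain ⟨j, hj⟩ := h2
    rw [zsmul_eq_mul] at hj
    rw [← Circle.exp_arg (φ e), ← hj, SurjTX.exp_pow]
    rcases Int.natAbs_eq N with h3 | h3
    · have h4 : (N.natAbs : ℝ) * ((j : ℝ) * a) = (j : ℝ) * (2 * Real.pi) := by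
        have h5 : ((N.natAbs : ℤ) : ℝ) = (N : ℝ) := by rw [← h3]
        rw [Int.cast_natCast] at h5
        rw [h5, ← hN]
        ring
      rw [h4, Circle.exp_int_mul_two_pi]
    · have h4 : (N.natAbs : ℝ) * ((j : ℝ) * a) = ((-j : ℤ) : ℝ) * (2 * Real.pi) := by
        have h5 : (N : ℝ) = -((N.natAbs : ℤ) : ℝ) := by
          rw [← Int.cast_neg, ← h3]
        rw [Int.cast_natCast] at h5
        rw [← hN, h5]
        push_cast
        ring
      rw [h4, Circle.exp_int_mul_two_pi]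

end Pool.Agent.Work.MP_7406cc_gt.PS

end

section

open scoped Topology
open Filter Set

namespace Pool.Agent.Work.MP_7406cc_gt.PS

namespace TailTBX

theorem smul_pre {G : Type} [AddCommGroup G] [TopologicalSpace G] [IsTopologicalAddGroup G]
    (k : ℕ) {W : Set G} (hW : W ∈ 𝓝 (0 : G)) : {x : G | k • x ∈ W} ∈ 𝓝 (0 : G) := by
  have h : Tendsto (fun x : G => k • x) (𝓝 0) (𝓝 (k • (0 : G))) :=
    (continuous_const_smul k).tendsto 0
  rw [smul_zero] at h
  exact h hW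

/-- Iterated thinness. -/
theorem iter {G : Type} [AddCommGroup G] [TopologicalSpace G] [IsTopologicalAddGroup G]
    {p ρ : ℕ} (hthin : Thin G p ρ) : ∀ k : ℕ, ∀ W ∈ 𝓝 (0 : G),
    ∃ F : Set G, F.Finite ∧ ∀ x : G, ∃ f ∈ F, ∃ y : G,
      p ^ ρ • x - f - p ^ (ρ + k) • y ∈ W := by
  intro k
  induction k with
  | zero =>
    intro W hW
    refine ⟨{0}, Set.finite_singleton 0, fun x => ⟨0, rfl, x, ?_⟩⟩
    have : p ^ ρ • x - 0 - p ^ (ρ + 0) • x = 0 := by simp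
    rw [this]
    exact mem_of_mem_nhds hW
  | succ k ih =>
    intro W hW
    obtain ⟨W1, hW1, hW1W⟩ : ∃ V ∈ 𝓝 (0 : G), ∀ v ∈ V, ∀ w ∈ V, v + w ∈ W :=
      exists_nhds_zero_half hW
    obtain ⟨F1, hF1, h1⟩ := ih W1 hW1
    have hp1 := hthin _ (smul_pre (p ^ k) hW1)
    unfold Thick at hp1
    rw [not_not] at hp1
    obtain ⟨F2, hF2, h2⟩ := hp1
    refine ⟨Set.image2 (fun f g => f + p ^ k • g) F1 F2, hF1.image2 _ hF2, fun x => ?_⟩
    obtain ⟨f, hf, y, hy⟩ := h1 x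
    obtain ⟨g, hg, z, hz⟩ := h2 y
    refine ⟨f + p ^ k • g, ⟨f, hf, g, hg, rfl⟩, z, ?_⟩
    have key : p ^ ρ • x - (f + p ^ k • g) - p ^ (ρ + (k + 1)) • z =
        (p ^ ρ • x - f - p ^ (ρ + k) • y) +
          p ^ k • (p ^ ρ • y - g - p ^ (ρ + 1) • z) := by
      rw [smul_sub, smul_sub, smul_smul, smul_smul, ← pow_add, ← pow_add,
        show k + (ρ + 1) = ρ + (k + 1) by ring, show k + ρ = ρ + k by ring]
      abel
    rw [key]
    exact hW1W _ hy _ hz

theorem lc_range {G : Type} [AddCommGroup G] (a : ℕ → G) (c : ℕ →₀ ℤ) (M : ℕ)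
    (hM : ∀ i, M ≤ i → c i = 0) : lc a c = ∑ i ∈ Finset.range M, c i • a i := by
  have h1 : lc a c = c.sum (fun i b => b • a i) := by
    simp [lc, Finsupp.linearCombination_apply]
  rw [h1, Finsupp.sum]
  refine Finset.sum_subset ?_ ?_
  · intro i hi
    rw [Finset.mem_range]
    by_contra h
    exact (Finsupp.mem_support_iff.1 hi) (hM i (not_lt.1 h))
  · intro i _ hi
    rw [Finsupp.notMem_support_iff.1 hi, zero_smul]

/-- Splitting of the combinations. -/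
theorem split {G : Type} [AddCommGroup G] (a : ℕ → G) (n N i₀ : ℕ) (hN : 0 < N)
    (ha : ∀ i, i₀ ≤ i → ∃ g : G, a i = n • g) :
    ∃ S : Set G, S.Finite ∧ ∀ c : ℕ →₀ ℤ, ∃ s ∈ S, ∃ z x : G, lc a c = s + N • z + n • x := by
  classical
  refine ⟨Set.range (fun r : Fin i₀ → Fin N => ∑ i : Fin i₀, ((r i : ℕ) : ℤ) • a i),
    Set.finite_range _, fun c => ?_⟩
  choose g hg using fun i : ℕ => (show ∃ g : G, i₀ ≤ i → a i = n • g by
    by_cases h : i₀ ≤ i
    · obtain ⟨g, hg⟩ := ha i h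
      exact ⟨g, fun _ => hg⟩
    · exact ⟨0, fun h' => absurd h' h⟩)
  have hN' : (0 : ℤ) < N := by exact_mod_cast hN
  obtain ⟨M, hM⟩ : ∃ M : ℕ, ∀ i, M ≤ i → c i = 0 := by
    refine ⟨c.support.sup id + 1, fun i hi => ?_⟩
    by_contra h
    have h1 : i ∈ c.support := Finsupp.mem_support_iff.2 h
    have h2 : i ≤ c.support.sup id := Finset.le_sup (f := id) h1
    omega
  have hr : ∀ i : Fin i₀, (c i % N).toNat < N := by
    intro i
    have h1 := Int.emod_nonneg (c i) hN'.ne'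
    have h2 := Int.emod_lt_of_pos (c i) hN'
    omega
  refine ⟨_, ⟨fun i => ⟨(c i % N).toNat, hr i⟩, rfl⟩,
    ∑ i ∈ Finset.range i₀, (c i / N) • a i, ∑ i ∈ Finset.Ico i₀ (i₀ + M), c i • g i, ?_⟩
  rw [lc_range a c (i₀ + M) (fun i hi => hM i (by omega))]
  rw [Finset.range_eq_Ico, ← Finset.sum_Ico_consecutive _ (Nat.zero_le i₀) (Nat.le_add_right i₀ M)]
  congr 1
  · rw [← Finset.range_eq_Ico, Finset.smul_sum]
    have h3 : (∑ i : Fin i₀, (((⟨(c i % N).toNat, hr i⟩ : Fin N) : ℕ) : ℤ) • a i) =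
        ∑ i ∈ Finset.range i₀, (c i % N) • a i := by
      rw [← Fin.sum_univ_eq_sum_range (fun i => (c i % N) • a i) i₀]
      refine Finset.sum_congr rfl fun i _ => ?_
      show ((c i % N).toNat : ℤ) • a i = _
      rw [Int.toNat_of_nonneg (Int.emod_nonneg (c i) hN'.ne')]
    refine Eq.trans ?_ (congrArg (fun t => t + ∑ x ∈ Finset.range i₀, N • (c x / ↑N) • a x)
      h3.symm)
    rw [← Finset.sum_add_distrib]
    refine Finset.sum_congr rfl fun i _ => ?_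
    rw [← natCast_zsmul, smul_smul, ← add_smul, Int.emod_add_mul_ediv]
  · rw [Finset.smul_sum]
    refine Finset.sum_congr rfl fun i hi => ?_
    rw [hg i (Finset.mem_Ico.1 hi).1, smul_comm]

end TailTBX

theorem prf_TailTB : S_TailTB := by
  intro G _ _ _ p ρ hp hstar hthin a ha U hU
  obtain ⟨W1, hW1, hW1U⟩ : ∃ V ∈ 𝓝 (0 : G), ∀ v ∈ V, ∀ w ∈ V, v + w ∈ U :=
    exists_nhds_zero_half hU
  obtain ⟨W, hW, hWW⟩ : ∃ V ∈ 𝓝 (0 : G), ∀ v ∈ V, ∀ w ∈ V, v + w ∈ W1 :=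
    exists_nhds_zero_half hW1
  obtain ⟨N, hN, hNW⟩ := hstar W hW
  obtain ⟨e, n, hpn, hNe⟩ : ∃ e n : ℕ, ¬ p ∣ n ∧ N = p ^ e * n :=
    Nat.exists_eq_pow_mul_and_not_dvd hN.ne' p hp.ne_one
  have hn : 0 < n := by
    rcases Nat.eq_zero_or_pos n with h | h
    · rw [h] at hpn; exact absurd (dvd_zero p) hpn
    · exact h
  have hcop : Nat.Coprime p n := (Nat.Prime.coprime_iff_not_dvd hp).2 hpn
  obtain ⟨F, hF, hFx⟩ := TailTBX.iter hthin e _ (TailTBX.smul_pre n hW)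
  obtain ⟨i₀, hi₀⟩ := ha n hn hcop
  obtain ⟨S, hS, hSc⟩ := TailTBX.split a n N i₀ hN hi₀
  refine ⟨Set.image2 (fun s f => p ^ ρ • s + n • f) S F, hS.image2 _ hF, ?_⟩
  rintro y ⟨c, rfl⟩
  obtain ⟨s, hs, z, x, hc⟩ := hSc c
  obtain ⟨f, hf, y, hy⟩ := hFx x
  refine ⟨p ^ ρ • s + n • f, ⟨s, hs, f, hf, rfl⟩, ?_⟩
  have key : p ^ ρ • lc a c - (p ^ ρ • s + n • f) =
      (N • (p ^ ρ • z) + N • (p ^ ρ • y)) + n • (p ^ ρ • x - f - p ^ (ρ + e) • y) := by
    have h1 : N • (p ^ ρ • y) = n • (p ^ (ρ + e) • y) := by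
      rw [smul_smul, smul_smul, hNe]
      congr 1
      ring
    have h2 : p ^ ρ • (N • z) = N • (p ^ ρ • z) := smul_comm _ _ _
    have h3 : p ^ ρ • (n • x) = n • (p ^ ρ • x) := smul_comm _ _ _
    rw [h1, hc, smul_add, smul_add, h2, h3, smul_sub, smul_sub]
    abel
  rw [key]
  have h0 : n • (p ^ ρ • x - f - p ^ (ρ + e) • y) ∈ W1 := by
    have := hWW _ hy _ (mem_of_mem_nhds hW)
    rwa [add_zero] at this
  exact hW1U _ (hWW _ (hNW _) _ (hNW _)) _ h0

end Pool.Agent.Work.MP_7406cc_gt.PS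

end
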